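import Pool.Agent.Mg.F45e593a.G8ea4df
import Pool.Agent.MP_45e593_co.Defs

section

/- The case of odd degree: the numerical part. -/

namespace Pool.Agent.MP_45e593_co.T3

open Finset

theorem odd_hi {u w t3 : ℝ} (h0 : 0 < u) (h1 : u ≤ 1 / 6) (hw : w ≤ 2)
    (h3 : 5 * (u * (1 + u + 4 * u ^ 2)) ≤ t3) :
    23 / 8 * u + 189 / 16 * u ^ 2 + 3915 / 128 * u ^ 3 + 2835 / 128 * u ^ 4 - 5 / 16 * t3 +
      15309 / 256 * ((1 + u) * u ^ 4 * w) ≤ 9 / 2 * u := by
  have a2 : u ^ 2 ≤ u / 6 := by nlinarith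
  have a3 : u ^ 3 ≤ u / 36 := by nlinarith
  have a4 : u ^ 4 ≤ u / 216 := by nlinarith
  have a5 : u ^ 5 ≤ u / 1296 := by nlinarith
  have a6 : (1 + u) * u ^ 4 * w ≤ (1 + u) * u ^ 4 * 2 := by gcongr
  nlinarith

theorem odd_lo {u w t3 c d : ℝ} (h0 : 0 < u) (h1 : u ≤ c) (hw : w ≤ d) (hd : 0 ≤ d)
    (h3 : t3 ≤ 14 * (u * (1 + u + 4 * u ^ 2))) :
    -((3 / 2 + 77 / 32 * c + 2205 / 128 * c ^ 3 + 15309 / 256 * ((1 + c + 4 * c ^ 2) * c ^ 2 * d)) * u) ≤
    23 / 8 * u + 189 / 16 * u ^ 2 + 3915 / 128 * u ^ 3 + 2835 / 128 * u ^ 4 - 5 / 16 * t3 -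
      35 / 128 * (36 * (u ^ 2 * (1 + u + 4 * u ^ 2))) -
      15309 / 256 * ((1 + u + 4 * u ^ 2) * u ^ 3 * w) := by
  have hc : 0 < c := h0.trans_le h1
  have a2 : u * u ≤ c * u := by gcongr
  have a3 : 0 ≤ u ^ 3 := by positivity
  have a4 : u ^ 3 * u ≤ c ^ 3 * u := by gcongr
  have a6 : (1 + u + 4 * u ^ 2) * u ^ 3 * w ≤ (1 + u + 4 * u ^ 2) * u ^ 3 * d := by gcongr
  have a7 : (1 + u + 4 * u ^ 2) * u ^ 2 * d * u ≤ (1 + c + 4 * c ^ 2) * c ^ 2 * d * u := by gcongr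
  nlinarith

theorem sqA {K x : ℝ} (hK : 28 ≤ K) (h1 : K / 2 + 1 ≤ x) (h2 : x ≤ K / 2 + 5 / 4 + 9 / 56) :
    K * (K + 4) < 4 * x ^ 2 ∧ 4 * x ^ 2 < K * (K + 6) := by
  have a1 : (K / 2 + 1) ^ 2 ≤ x ^ 2 := by gcongr
  have a2 : x ^ 2 ≤ (K / 2 + 5 / 4 + 9 / 56) ^ 2 := by gcongr; linarith
  constructor <;> linarith

theorem sqB {K u x : ℝ} (hK : 28 ≤ K) (u0 : 0 < u) (u1 : u ≤ 1 / 28) (uK : u * K = 1)
    (h1 : K / 2 + 2 - 3513 / 1000 * u ≤ x) (h2 : x ≤ K / 2 + 2 + 9 / 56) :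
    K * (K + 8) < 4 * x ^ 2 ∧ 4 * x ^ 2 < K * (K + 10) := by
  have a1 : (K / 2 + 2 - 3513 / 1000 * u) ^ 2 ≤ x ^ 2 := by gcongr; linarith
  have a2 : x ^ 2 ≤ (K / 2 + 2 + 9 / 56) ^ 2 := by gcongr; linarith
  have a3 := mul_nonneg (sub_nonneg.2 u1) (by linarith : 0 ≤ 1 / 2 - u)
  constructor <;> linarith

theorem sqC {K u : ℝ} (h1 : 6 ≤ K) (h2 : K ≤ 26) (uK : u * K = 1) :
    33 / 20 + 53 / 400 * K ≤ √K ∧ 41 / 400 * K + 9 / 2 * u < 59 / 20 ∧ √K ≤ (K + 25 / 4) / 5 := by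
  have a := mul_nonneg (sub_nonneg.2 h1) (sub_nonneg.2 h2)
  refine ⟨Real.le_sqrt_of_sq_le (by linarith), ?_, ?_⟩
  · refine lt_of_mul_lt_mul_right (a := K) ?_ (by linarith)
    linarith
  · have := Real.sq_sqrt (by linarith : 0 ≤ K)
    linarith [sq_nonneg (√K - 5 / 2)]

theorem sqD {u y : ℝ} (u0 : 0 < u) (u1 : u ≤ 1 / 28)
    (h : (23 + 28 * u) * y ≤ 56 * (1 + u + 4 * u ^ 2)) : y ≤ 487 / 200 := by
  refine le_of_mul_le_mul_left (h.trans ?_) (by linarith : 0 < 23 + 28 * u)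
  linarith [mul_nonneg u0.le (sub_nonneg.2 u1)]

variable {V : Type*} [Fintype V] [DecidableEq V]
variable {G H : SimpleGraph V} [DecidableRel G.Adj] [DecidableRel H.Adj] {k : ℕ}

theorem sq_between {K x a b : ℝ} {j : ℤ} (hK : 0 < K) (hx : x = √K * j) (h1 : K * a < 4 * x ^ 2)
    (h2 : 4 * x ^ 2 < K * b) : a < 4 * (j : ℝ) ^ 2 ∧ 4 * (j : ℝ) ^ 2 < b := by
  rw [hx, mul_pow, Real.sq_sqrt hK.le] at h1 h2
  exact ⟨lt_of_mul_lt_mul_left (by linarith) hK.le, lt_of_mul_lt_mul_left (by linarith) hK.le⟩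

theorem Cfg.not_odd (h : Cfg G H k) (hk : 7 ≤ k) (ho : Odd k) : False := by
  have hk' : (7 : ℝ) ≤ k := by exact_mod_cast hk
  obtain ⟨j, hj, hs⟩ := h.trunc (by omega)
  obtain ⟨lo, hi⟩ := hs 5
  obtain ⟨P, t2, p0, p1, p2⟩ := h.TT_two_odd (by omega) ho
  have t1 : TT G H 1 = Fintype.card V := by
    rw [TT_one, sum_congr rfl fun u _ => by rw [h.aa_one (by omega) ho u]]; simp
  obtain ⟨t3, t3'⟩ := h.TT_three
  have t4 := h.TT_four
  have t4' := (h.TT_bound 4).1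
  have hN := h.card
  simp only [sum_range_succ, range_zero, sum_empty, TT_zero, t1, t2, cc_zero, cc_one, cc_two,
    cc_three, cc_four, cc_five] at lo hi t3 t3' t4
  obtain ⟨K, hK⟩ : ∃ K : ℝ, k = K + 1 := ⟨k - 1, by ring⟩
  generalize (Fintype.card V : ℝ) = N at *
  generalize TT G H 3 = T3 at *
  generalize TT G H 4 = T4 at *
  rw [hK] at lo hi p2 hN hk'
  rw [add_sub_cancel_right] at lo hi
  obtain ⟨x, hx⟩ : ∃ x, x = √K * j := ⟨_, rfl⟩
  rw [← hx] at lo hi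
  have K0 : 0 < K := by linarith
  have K3 : K - 3 ≠ 0 := by linarith
  obtain ⟨u, hu⟩ : ∃ u, u = 1 / K := ⟨_, rfl⟩
  obtain ⟨w, hw⟩ : ∃ w, w = K / (K - 3) := ⟨_, rfl⟩
  have u0 : 0 < u := by rw [hu]; positivity
  have uK : u * K = 1 := by rw [hu]; field_simp
  have hN' : N = K ^ 2 + K + 4 := by linarith
  have n2 : N * u ^ 2 = 1 + u + 4 * u ^ 2 := by rw [hN', hu]; field_simp
  have lo' : K / 2 + 2 + (23 / 8 * u + 189 / 16 * u ^ 2 + 3915 / 128 * u ^ 3 + 2835 / 128 * u ^ 4 -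
      5 / 16 * (T3 * u ^ 3) - 35 / 128 * (T4 * u ^ 4) -
      15309 / 256 * ((1 + u + 4 * u ^ 2) * u ^ 3 * w)) - 3 / 4 * (P * u ^ 2) ≤ x := by
    refine le_of_eq_of_le ?_ lo
    rw [hN', hu, hw]; field_simp; ring
  have hi' : x ≤ K / 2 + 2 + (23 / 8 * u + 189 / 16 * u ^ 2 + 3915 / 128 * u ^ 3 +
      2835 / 128 * u ^ 4 - 5 / 16 * (T3 * u ^ 3) + 15309 / 256 * ((1 + u) * u ^ 4 * w)) -
      35 / 128 * (T4 * u ^ 4) - 3 / 4 * (P * u ^ 2) := by
    refine le_of_le_of_eq hi ?_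
    rw [hN', hu, hw]; field_simp; ring
  clear lo hi
  have u6 : u ≤ 1 / 6 := by rw [hu]; exact one_div_le_one_div_of_le (by norm_num) (by linarith)
  have w2 : w ≤ 2 := by rw [hw, div_le_iff₀ (by linarith)]; linarith
  have s3 : 5 * (u * (1 + u + 4 * u ^ 2)) ≤ T3 * u ^ 3 := by
    rw [← n2]; linarith [mul_le_mul_of_nonneg_right t3 (pow_pos u0 3).le]
  have s3' : T3 * u ^ 3 ≤ 14 * (u * (1 + u + 4 * u ^ 2)) := by
    rw [← n2]; linarith [mul_le_mul_of_nonneg_right t3' (pow_pos u0 3).le]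
  have s4 : T4 * u ^ 4 ≤ 12 * (P * u ^ 2 * u ^ 2) + 36 * (u ^ 2 * (1 + u + 4 * u ^ 2)) := by
    rw [← n2]; linarith [mul_le_mul_of_nonneg_right t4 (pow_pos u0 4).le]
  have s4' : 0 ≤ T4 * u ^ 4 := by positivity
  have q0 : 0 ≤ P * u ^ 2 := by positivity
  have q1 : P * u ^ 2 ≤ 1 + u + 4 * u ^ 2 := by rw [← n2]; gcongr
  have b1 := odd_hi u0 u6 w2 s3
  have hr0 := Real.sqrt_nonneg K
  rcases lt_or_ge k 28 with hs | hs
  · have hK26 : K ≤ 26 := by
      have : (k : ℝ) ≤ 27 := by exact_mod_cast Nat.lt_succ_iff.1 hs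
      linarith
    have b2 := odd_lo u0 u6 w2 (by norm_num) s3'
    have a2 : u ^ 2 ≤ 1 / 36 := (pow_le_pow_left₀ u0.le u6 2).trans (by norm_num)
    obtain ⟨r1, r2, r3⟩ := sqC (by linarith) hK26 uK
    have a3 : P * u ^ 2 * u ^ 2 ≤ 23 / 18 * (1 / 36) := by gcongr; linarith
    obtain ⟨i, hi⟩ := hj
    rcases le_or_gt i 0 with h1 | h1
    · have j1 : (j : ℝ) ≤ 1 := by exact_mod_cast (by omega : j ≤ 1)
      have : x ≤ √K := by rw [hx]; exact mul_le_of_le_one_right hr0 j1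
      norm_num at b2
      linarith
    · have j1 : (3 : ℝ) ≤ j := by exact_mod_cast (by omega : 3 ≤ j)
      have : √K * 3 ≤ x := by rw [hx]; gcongr
      linarith
  have hK28 : 28 ≤ K := by
    obtain ⟨l, hl⟩ := ho
    have : (29 : ℝ) ≤ k := by exact_mod_cast (by omega : 29 ≤ k)
    linarith
  have u28 : u ≤ 1 / 28 := by rw [hu]; exact one_div_le_one_div_of_le (by norm_num) hK28
  have w28 : w ≤ 28 / 25 := by rw [hw, div_le_iff₀ (by linarith)]; linarith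
  have b2 := odd_lo u0 u28 w28 (by norm_num) s3'
  have a2 : u ^ 2 ≤ 1 / 784 := (pow_le_pow_left₀ u0.le u28 2).trans (by norm_num)
  have a3 : P * u ^ 2 * u ^ 2 ≤ P * u ^ 2 * (1 / 784) := by gcongr
  norm_num at b2
  obtain ⟨l, hl⟩ := ho
  have hl' : K = 2 * l := by
    have : (k : ℝ) = 2 * l + 1 := by exact_mod_cast hl
    linarith
  rcases p2 with p2 | p2
  · have q2 : P * u ^ 2 = 1 + u + 4 * u ^ 2 := by rw [p2, n2]
    have x1 : K / 2 + 1 ≤ x := by linarith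
    have x2 : x ≤ K / 2 + 5 / 4 + 9 / 56 := by linarith [sq_nonneg u]
    obtain ⟨c1, c2⟩ := sq_between K0 hx (sqA hK28 x1 x2).1 (sqA hK28 x1 x2).2
    rw [hl'] at c1 c2
    have d1 : (2 * l + 4 : ℤ) < 4 * j ^ 2 := by exact_mod_cast c1
    have d2 : 4 * j ^ 2 < (2 * l + 6 : ℤ) := by exact_mod_cast c2
    omega
  · have p3 := p2 (5 * K / 28) (by positivity)
      (by linarith [mul_nonneg (sub_nonneg.2 hK28) (sub_nonneg.2 hK28)])
    have p4 : P * u ≤ 487 / 200 := by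
      have e1 : (23 + 28 * u) * (P * u) ≤ 56 * (1 + u + 4 * u ^ 2) := by
        rw [← n2]
        have := mul_le_mul_of_nonneg_right p3 (pow_pos u0 2).le
        have e : (K + 1 - 5 * K / 28) * P * u ^ 2 * 28 = (23 * (u * K) + 28 * u) * (P * u) := by ring
        rw [uK] at e
        linarith
      exact sqD u0 u28 e1
    have q2 : P * u ^ 2 ≤ 487 / 200 * u := by linarith [mul_le_mul_of_nonneg_right p4 u0.le]
    have x1 : K / 2 + 2 - 3513 / 1000 * u ≤ x := by linarith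
    have x2 : x ≤ K / 2 + 2 + 9 / 56 := by linarith
    obtain ⟨c1, c2⟩ := sq_between K0 hx (sqB hK28 u0 u28 uK x1 x2).1 (sqB hK28 u0 u28 uK x1 x2).2
    rw [hl'] at c1 c2
    have d1 : (2 * l + 8 : ℤ) < 4 * j ^ 2 := by exact_mod_cast c1
    have d2 : 4 * j ^ 2 < (2 * l + 10 : ℤ) := by exact_mod_cast c2
    omega

end Pool.Agent.MP_45e593_co.T3

end

section

/- The Ramsey numbers at offset three. -/

namespace Pool.Agent.MP_45e593_co.T3

open Finset SimpleGraph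

theorem c4f_iff {V : Type*} (G : SimpleGraph V) : ¬ (cycleGraph 4).IsContained G ↔ C4F G := by
  constructor
  · intro h x y z w hxy hzw h1 h2 h3 h4
    apply h
    have a1 := h1.ne
    have a2 := h2.ne
    have a3 := h3.ne
    have a4 := h4.ne
    refine ⟨⟨⟨![x, z, y, w], ?_⟩, ?_⟩⟩
    · intro a b hab
      fin_cases a <;> fin_cases b <;>
        first
          | exact absurd hab (by decide)
          | simp [h1, h2, h3, h4, h1.symm, h2.symm, h3.symm, h4.symm]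
    · intro a b hab
      fin_cases a <;> fin_cases b <;>
        simp_all [eq_comm]
  · rintro h ⟨f⟩
    exact h (f 0) (f 2) (f 1) (f 3) (f.injective.ne (by decide)) (f.injective.ne (by decide))
      (f.toHom.map_adj (by decide)) (f.toHom.map_adj (by decide)) (f.toHom.map_adj (by decide))
      (f.toHom.map_adj (by decide))

theorem star_iff {V : Type*} [Fintype V] (H : SimpleGraph V) [DecidableRel H.Adj] (n : ℕ) :
    (completeBipartiteGraph (Fin 1) (Fin n)).IsContained H ↔ ∃ x, n ≤ H.degree x := by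
  constructor
  · rintro ⟨f⟩
    refine ⟨f (Sum.inl 0), ?_⟩
    rw [← card_neighborSet_eq_degree]
    have := Fintype.card_le_of_injective
      (fun i : Fin n => (⟨f (Sum.inr i), f.toHom.map_adj (by simp)⟩ : H.neighborSet (f (Sum.inl 0))))
      (fun i j hij => Sum.inr_injective (f.injective (congrArg Subtype.val hij)))
    rwa [Fintype.card_fin] at this
  · rintro ⟨x, hx⟩
    rw [← card_neighborSet_eq_degree] at hx
    obtain ⟨e⟩ := Function.Embedding.nonempty_of_card_le (α := Fin n) (β := H.neighborSet x)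
      (by simpa using hx)
    refine ⟨⟨⟨Sum.elim (fun _ => x) (fun i => e i), ?_⟩, ?_⟩⟩
    · rintro (a | a) (b | b) hab
      · simp at hab
      · exact (e b).2
      · exact (e a).2.symm
      · simp at hab
    · rintro (a | a) (b | b) hab
      · rw [Subsingleton.elim a b]
      · exact absurd hab (e b).2.ne
      · exact absurd hab.symm (e a).2.ne
      · rw [e.injective (Subtype.ext hab)]

theorem exists_cfg {V : Type*} [Fintype V] [DecidableEq V] (G : SimpleGraph V) [DecidableRel G.Adj]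
    (k : ℕ) (hk : 5 ≤ k) (hN : (Fintype.card V : ℝ) = k ^ 2 - k + 4) (h : C4F G)
    (hd : ∀ x, k ≤ G.degree x) : ∃ H, Cfg G H k := by
  have hk' : (5 : ℝ) ≤ k := by exact_mod_cast hk
  refine ⟨⟨fun x y => x ≠ y ∧ ∀ z, G.Adj x z → ¬ G.Adj y z,
    ⟨fun x y a => ⟨a.1.symm, fun z b c => a.2 z c b⟩⟩, ⟨fun x a => a.1 rfl⟩⟩,
    h, fun x => le_antisymm ?_ (hd x), fun _ _ => Iff.rfl, hN⟩
  have h1 : (G.degree x : ℝ) * k ≤ ∑ y, (G.adjMatrix ℝ * G.adjMatrix ℝ) x y := by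
    simp only [Matrix.mul_apply]
    rw [sum_comm, ← row_sum, sum_mul]
    refine sum_le_sum fun z _ => ?_
    rw [← mul_sum, row_sum]
    exact mul_le_mul_of_nonneg_left (by exact_mod_cast hd z) (adj_nn G x z)
  have h2 : ∑ y, (G.adjMatrix ℝ * G.adjMatrix ℝ) x y ≤ G.degree x + (Fintype.card V - 1) := by
    rw [← add_sum_erase _ _ (mem_univ x), G.adjMatrix_mul_self_apply_self]
    refine add_le_add le_rfl ((sum_le_sum (g := fun _ => (1 : ℝ)) fun y hy => ?_).trans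
      (le_of_eq ?_))
    · rw [mul_card]
      norm_cast
      refine card_le_one.2 fun z hz w hw => by_contra fun hne => ?_
      simp only [mem_filter, mem_univ, true_and] at hz hw
      exact h x y z w (mem_erase.1 hy).1.symm hne hz.1 hz.2.symm hw.1 hw.2.symm
    · rw [sum_const, card_erase_of_mem (mem_univ x), card_univ, nsmul_eq_mul, mul_one,
        Nat.cast_sub (Fintype.card_pos_iff.2 ⟨x⟩), Nat.cast_one]
  by_contra hn
  have h3 : (k : ℝ) + 1 ≤ G.degree x := by exact_mod_cast not_le.1 hn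
  nlinarith

theorem upper_mem (m : ℕ) (hm : 6 ≤ m)
    (h : Even m ∨ ∃ s, Even s ∧ 8 ≤ s ∧ s ^ 2 ≤ m + 1 ∧ m + 6 ≤ (s + 1) ^ 2)
    (F : SimpleGraph (Fin (m ^ 2 + m + 4))) :
    (cycleGraph 4).IsContained F ∨
      (completeBipartiteGraph (Fin 1) (Fin (m ^ 2 + 3))).IsContained Fᶜ := by
  classical
  by_contra hn
  rw [not_or, c4f_iff, star_iff, not_exists] at hn
  obtain ⟨H, hH⟩ := exists_cfg F (m + 1) (by omega) (by simp; ring) hn.1 (fun x => by
    have := hn.2 x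
    rw [degree_compl, Fintype.card_fin] at this
    omega)
  rcases Nat.even_or_odd m with he | ho
  · exact hH.not_odd (by omega) he.add_one
  · obtain ⟨s, h1, h2, h3, h4⟩ := h.resolve_left (Nat.not_even_iff_odd.2 ho)
    exact hH.not_even ho.add_one h1 h2 h3 h4

theorem ramsey_upper (m : ℕ) (hm : 6 ≤ m)
    (h : Even m ∨ ∃ s, Even s ∧ 8 ≤ s ∧ s ^ 2 ≤ m + 1 ∧ m + 6 ≤ (s + 1) ^ 2) :
    ramsey (cycleGraph 4) (completeBipartiteGraph (Fin 1) (Fin (m ^ 2 + 3))) ≤ m ^ 2 + m + 4 :=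
  Nat.sInf_le ⟨by omega, upper_mem m hm h⟩

theorem not_mem_of_witness {α β W : Type} [Fintype W] (G : SimpleGraph α) (H : SimpleGraph β)
    (F : SimpleGraph W) (h1 : ¬ G.IsContained F) (h2 : ¬ H.IsContained Fᶜ) (N : ℕ)
    (hN : ∀ F : SimpleGraph (Fin N), G.IsContained F ∨ H.IsContained Fᶜ) : Fintype.card W < N := by
  by_contra hn
  obtain ⟨e⟩ := Function.Embedding.nonempty_of_card_le (α := Fin N) (β := W) (by simpa using hn)
  rcases hN (F.comap e) with h | h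
  · exact h1 (h.trans ⟨(Embedding.comap e F).toCopy⟩)
  · have : (F.comap e)ᶜ = Fᶜ.comap e := by
      ext a b
      simp
    rw [this] at h
    exact h2 (h.trans ⟨(Embedding.comap e Fᶜ).toCopy⟩)

variable {K : Type} [Field K] [CharP K 2]

/-- part of the polarity graph in characteristic two -/
def pol (c : Fin 3 ↪ Kˣ) : SimpleGraph ((Kˣ × K) ⊕ Fin 3) where
  Adj
    | .inl a, .inl b => a.2 + b.2 = a.1 * b.1
    | .inl a, .inr i => a.1 = c i
    | .inr i, .inl a => a.1 = c i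
    | .inr _, .inr _ => False
  symm := ⟨by
    rintro (a | a) (b | b) h
    · change b.2 + a.2 = b.1 * a.1
      rw [add_comm, mul_comm]
      exact h
    · exact h
    · exact h
    · exact h⟩
  loopless := ⟨by
    rintro (a | a) h
    · change a.2 + a.2 = a.1 * a.1 at h
      rw [CharTwo.add_self_eq_zero] at h
      exact mul_ne_zero a.1.ne_zero a.1.ne_zero h.symm
    · exact h⟩

theorem pol_noC4 (c : Fin 3 ↪ Kˣ) : C4F (pol c) := by
  have key : ∀ a b u : Kˣ × K, a.1 = b.1 → a.2 + u.2 = a.1 * u.1 → b.2 + u.2 = b.1 * u.1 → a = b :=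
    fun a b u h h1 h2 => Prod.ext h (by rw [h] at h1; linear_combination h1 - h2)
  rintro (x | x) (y | y) (z | z) (w | w) hxy hzw h1 h2 h3 h4
  · change x.2 + z.2 = x.1 * z.1 at h1
    change y.2 + z.2 = y.1 * z.1 at h2
    change x.2 + w.2 = x.1 * w.1 at h3
    change y.2 + w.2 = y.1 * w.1 at h4
    have : ((x.1 : K) - y.1) * ((z.1 : K) - w.1) = 0 := by linear_combination -h1 + h2 + h3 - h4
    rcases mul_eq_zero.1 this with h | h
    · exact hxy (congrArg _ (key x y z (Units.ext (sub_eq_zero.1 h)) h1 h2))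
    · exact hzw (congrArg _ (key z w x (Units.ext (sub_eq_zero.1 h))
        (by linear_combination h1) (by linear_combination h3)))
  · exact hxy (congrArg _ (key x y z (Eq.trans h3 (Eq.symm h4)) h1 h2))
  · exact hxy (congrArg _ (key x y w (Eq.trans h1 (Eq.symm h2)) h3 h4))
  · exact hzw (congrArg _ (c.injective (Eq.trans (Eq.symm h1) h3)))
  · exact hzw (congrArg _ (key z w x (Eq.trans h2 (Eq.symm h4)) ((pol c).adj_symm h1)
      ((pol c).adj_symm h3)))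
  · exact h4
  · exact h2
  · exact h2
  · exact hzw (congrArg _ (key z w y (Eq.trans h1 (Eq.symm h3)) ((pol c).adj_symm h2)
      ((pol c).adj_symm h4)))
  · exact h3
  · exact h1
  · exact h1
  · exact hxy (congrArg _ (c.injective (Eq.trans (Eq.symm h1) h2)))
  · exact h3
  · exact h1
  · exact h1

theorem pol_degree [Fintype K] [DecidableEq K] (c : Fin 3 ↪ Kˣ) [DecidableRel (pol c).Adj]
    (v : (Kˣ × K) ⊕ Fin 3) : Fintype.card K - 1 ≤ (pol c).degree v := by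
  rw [← card_neighborSet_eq_degree, ← Fintype.card_units]
  rcases v with a | i
  · refine Fintype.card_le_of_injective
      (fun x : Kˣ => ⟨.inl (x, a.1 * x - a.2), by
        change a.2 + (a.1 * x - a.2) = a.1 * x
        ring⟩) fun x y h => ?_
    exact congrArg Prod.fst (Sum.inl_injective (congrArg Subtype.val h))
  · refine Fintype.card_le_of_injective
      (fun x : Kˣ => ⟨.inl (c i, x), rfl⟩) fun x y h => ?_
    exact Units.ext (congrArg Prod.snd (Sum.inl_injective (congrArg Subtype.val h)))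

theorem ramsey_exact (e s : ℕ) (h1 : Even s) (h2 : 8 ≤ s) (h3 : s ^ 2 ≤ 2 ^ e)
    (h4 : 2 ^ e + 5 ≤ (s + 1) ^ 2) :
    ramsey (cycleGraph 4) (completeBipartiteGraph (Fin 1) (Fin ((2 ^ e - 1) ^ 2 + 3))) =
      (2 ^ e - 1) ^ 2 + 2 ^ e + 3 := by
  classical
  have h8 : 64 ≤ 2 ^ e := by nlinarith
  have he : e ≠ 0 := by rintro rfl; omega
  obtain ⟨m, hm⟩ : ∃ m, 2 ^ e = m + 1 := ⟨2 ^ e - 1, by omega⟩
  have hs : Even m ∨ ∃ s, Even s ∧ 8 ≤ s ∧ s ^ 2 ≤ m + 1 ∧ m + 6 ≤ (s + 1) ^ 2 :=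
    Or.inr ⟨s, h1, h2, by omega, by omega⟩
  rw [hm, Nat.add_sub_cancel]
  refine le_antisymm ((ramsey_upper m (by omega) hs).trans (by omega)) ?_
  refine le_csInf ⟨m ^ 2 + m + 4, by omega, upper_mem m (by omega) hs⟩ ?_
  rintro N ⟨-, hN⟩
  have : Fact (Nat.Prime 2) := ⟨Nat.prime_two⟩
  let _ : Fintype (GaloisField 2 e) := Fintype.ofFinite _
  have hc : Fintype.card (GaloisField 2 e) = m + 1 := by
    rw [← Nat.card_eq_fintype_card, GaloisField.card 2 e he, hm]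
  obtain ⟨c⟩ := Function.Embedding.nonempty_of_card_le (α := Fin 3) (β := (GaloisField 2 e)ˣ)
    (by rw [Fintype.card_units, hc]; simp; omega)
  have hW : Fintype.card (((GaloisField 2 e)ˣ × GaloisField 2 e) ⊕ Fin 3) = m ^ 2 + m + 3 := by
    rw [Fintype.card_sum, Fintype.card_prod, Fintype.card_units, hc, Fintype.card_fin,
      Nat.add_sub_cancel]
    ring
  have := not_mem_of_witness _ _ (pol c) ((c4f_iff _).2 (pol_noC4 c)) (by
    rw [star_iff, not_exists]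
    intro v
    have := pol_degree c v
    rw [degree_compl, hW]
    omega) N hN
  omega

end Pool.Agent.MP_45e593_co.T3

end
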