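import Pool.Agent.Mg.F45e593a.G67c614
import Pool.Agent.Mg.F45e593a.Ga2fa03

/- Exact values of the Ramsey numbers of the 4-cycle versus stars, from Baer subplanes. -/

namespace Pool.Agent.MP_45e593_co.Baer

open Finset SimpleGraph

theorem low_even (e r q a τ k n : ℕ) (he : 1 ≤ e) (hr : r = 2 ^ e) (hq : q = r * r)
    (ha : a + 1 ≤ r) (hτ : τ ≤ q) (hk : k + max 2 (a + min τ 1) = q + 1)
    (hn : n + k + (1 + a * (q + r) + τ) = q ^ 2 + q + 1) (h0 : 0 < n) (N : ℕ) (hN : Good n N) :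
    n + k < N := by
  classical
  let _ : Fintype (GaloisField 2 (2 * e)) := Fintype.ofFinite _
  obtain ⟨hc, σ, h1, h2⟩ := field_setup 2 e he
  rw [← hr] at hc h2
  obtain ⟨S, hS, hd⟩ := even_set σ h1 h2 hc (CharP.cast_eq_zero _ 2) a τ ha (by omega)
  rw [← hc, ← hq] at hS
  exact del one_ne_zero S _ k n hd (by rw [← hc, ← hq, hk]) (by rw [← hc, ← hq, hS, hn]) N hN h0

theorem four_le {e : ℕ} (he : 2 ≤ e) : 4 ≤ 2 ^ e :=
  le_trans (by norm_num) (Nat.pow_le_pow_right (by norm_num) he)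

theorem four_mod (e : ℕ) (he : 1 ≤ e) : 4 ^ e % 6 = 4 := by
  induction e, he using Nat.le_induction with
  | base => rfl
  | succ e _ ih => rw [pow_succ]; omega

theorem exact_interval (e n : ℕ) (he : 2 ≤ e)
    (h1 : (4 ^ e - 1) ^ 2 ≤ n + 2 ^ e ∨ n + 2 * 2 ^ e = (4 ^ e - 1) ^ 2)
    (h2 : n ≤ (4 ^ e - 1) ^ 2 + min e 3) :
    ramsey (cycleGraph 4) (completeBipartiteGraph (Fin 1) (Fin n)) = n + 4 ^ e := by
  have hmod := four_mod e (by omega)
  obtain ⟨r, hr⟩ : ∃ r, r = 2 ^ e := ⟨_, rfl⟩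
  have hr4 : 4 ≤ r := hr ▸ four_le he
  have hq : 4 ^ e = r * r := by rw [hr, ← mul_pow]; rfl
  obtain ⟨m, hm⟩ : ∃ m, 4 ^ e = m + 1 := ⟨4 ^ e - 1, by omega⟩
  rw [hm, Nat.add_sub_cancel, ← hr] at h1
  rw [hm, Nat.add_sub_cancel] at h2
  rw [hm] at hmod hq ⊢
  have hrm : 4 * r ≤ m + 1 := by nlinarith
  have hsq : (m + 1) ^ 2 = m ^ 2 + 2 * m + 1 := by ring
  have hm2 : m + 1 ≤ m ^ 2 := by nlinarith
  refine exact_of ?_ ?_
  · rcases lt_or_ge n (m ^ 2) with h | h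
    · exact up_small m n h
    obtain ⟨t, rfl⟩ := Nat.exists_eq_add_of_le h
    rcases le_or_gt t 1 with ht | ht
    · exact up_low m t ht (by omega)
    rcases (show t = 2 ∨ t = 3 by omega) with rfl | rfl
    · rw [show m ^ 2 + 2 + (m + 1) = m ^ 2 + m + 3 by ring]
      exact upper_mem m (by omega) (by omega)
    · rw [show m ^ 2 + 3 + (m + 1) = m ^ 2 + m + 4 by ring]
      have h8 : 8 ≤ r := hr ▸ le_trans (by norm_num)
        (Nat.pow_le_pow_right (by norm_num) (show 3 ≤ e by omega))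
      exact T3.upper_mem m (by omega) (Or.inr ⟨r, hr ▸ (Nat.even_pow.2 ⟨even_two, by omega⟩), h8,
        by nlinarith, by nlinarith⟩)
  · rcases h1 with h | h
    · exact low_even e r (m + 1) 1 (m ^ 2 + m + 1 - r - n) m n (by omega) hr hq (by omega)
        (by omega) (by omega) (by omega) (by omega)
    · exact low_even e r (m + 1) 2 0 m n (by omega) hr hq (by omega)
        (by omega) (by omega) (by omega) (by omega)

theorem exact_third (e n : ℕ) (he : 2 ≤ e) (hn : Even n)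
    (h1 : (4 ^ e - 1) * (4 ^ e - 2) ≤ n + 2 * 2 ^ e ∨ n + 3 * 2 ^ e = (4 ^ e - 1) * (4 ^ e - 2))
    (h2 : n < (4 ^ e - 1) * (4 ^ e - 2)) :
    ramsey (cycleGraph 4) (completeBipartiteGraph (Fin 1) (Fin n)) = n + (4 ^ e - 1) := by
  have hmod := four_mod e (by omega)
  obtain ⟨r, hr⟩ : ∃ r, r = 2 ^ e := ⟨_, rfl⟩
  have hr4 : 4 ≤ r := hr ▸ four_le he
  have hq : 4 ^ e = r * r := by rw [hr, ← mul_pow]; rfl
  obtain ⟨k, hk⟩ : ∃ k, 4 ^ e = k + 2 := ⟨4 ^ e - 2, by omega⟩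
  rw [hk, Nat.add_sub_cancel, show k + 2 - 1 = k + 1 by omega] at h1 h2
  rw [← hr] at h1
  rw [hk] at hmod hq ⊢
  rw [show k + 2 - 1 = k + 1 by omega]
  have hrm : 4 * r ≤ k + 2 := by nlinarith
  have e1 : (k + 2) ^ 2 = (k + 1) * k + 3 * k + 4 := by ring
  have e2 : (k + 1) ^ 2 = (k + 1) * k + k + 1 := by ring
  have e3 : k + 2 ≤ (k + 1) * k := by nlinarith
  refine exact_of (up_par (k + 1) n (Nat.odd_iff.2 (by omega)) hn (by omega)) ?_
  rcases h1 with h | h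
  · exact low_even e r (k + 2) 2 (k + 2 + (k + 1) * k - n - 2 * r) k n (by omega) hr hq (by omega)
      (by omega) (by omega) (by omega) (by omega)
  · exact low_even e r (k + 2) 3 0 k n (by omega) hr hq (by omega)
      (by omega) (by omega) (by omega) (by omega)

end Pool.Agent.MP_45e593_co.Baer
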