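import Pool.Agent.Mg.F45e593.G23630d

section

/- The polarity graph of a projective plane over a finite field, and deletion of vertex sets. -/

namespace Pool.Agent.MP_45e593_co.Baer

open Finset SimpleGraph

/-- points of the projective plane, in normal form -/
abbrev Pt (F : Type) := (F × F) ⊕ Option F

variable {F : Type} [Field F]

def c1 : Pt F → F
  | Sum.inl x => x.1
  | Sum.inr (some _) => 1
  | Sum.inr none => 0

def c2 : Pt F → F
  | Sum.inl x => x.2
  | Sum.inr (some s) => s
  | Sum.inr none => 1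

def c3 : Pt F → F
  | Sum.inl _ => 1
  | Sum.inr _ => 0

/-- the symmetric bilinear form -/
def bl (κ : F) (u v : Pt F) : F := c1 u * c2 v + c2 u * c1 v - κ * (c3 u * c3 v)

theorem bl_comm (κ : F) (u v : Pt F) : bl κ u v = bl κ v u := by
  unfold bl; ring

theorem pt_ext {u v : Pt F} (h1 : c1 u * c2 v = c2 u * c1 v) (h2 : c1 u * c3 v = c3 u * c1 v)
    (h3 : c2 u * c3 v = c3 u * c2 v) : u = v := by
  rcases u with ⟨a, b⟩ | _ | s <;> rcases v with ⟨a', b'⟩ | _ | s' <;>
    simp only [c1, c2, c3, mul_one, one_mul, mul_zero, zero_mul, one_ne_zero, zero_ne_one]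
      at h1 h2 h3
  · rw [h2, h3]
  · rfl
  · rw [h1]

theorem cross {a1 a2 a3 b1 b2 b3 z1 z2 z3 w1 w2 w3 : F}
    (h1 : a1 * z1 + a2 * z2 + a3 * z3 = 0) (h2 : b1 * z1 + b2 * z2 + b3 * z3 = 0)
    (h3 : a1 * w1 + a2 * w2 + a3 * w3 = 0) (h4 : b1 * w1 + b2 * w2 + b3 * w3 = 0) :
    (a2 * b3 - a3 * b2 = 0 ∧ a3 * b1 - a1 * b3 = 0 ∧ a1 * b2 - a2 * b1 = 0) ∨
      (z2 * w3 - z3 * w2 = 0 ∧ z3 * w1 - z1 * w3 = 0 ∧ z1 * w2 - z2 * w1 = 0) := by
  by_contra hn
  rw [not_or] at hn
  apply hn.1
  refine ⟨?_, ?_, ?_⟩ <;> by_contra h0 <;> apply hn.2 <;> refine ⟨?_, ?_, ?_⟩ <;>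
    refine (mul_eq_zero.1 ?_).resolve_left h0
  · linear_combination (b2 * w2 + b3 * w3) * h1 - (b2 * z2 + b3 * z3) * h3 + a1 * w1 * h2 -
      a1 * z1 * h4
  · linear_combination (-b2 * w1) * h1 + b2 * z1 * h3 + a2 * w1 * h2 - a2 * z1 * h4
  · linear_combination (-b3 * w1) * h1 + b3 * z1 * h3 + a3 * w1 * h2 - a3 * z1 * h4
  · linear_combination (-b1 * w2) * h1 + b1 * z2 * h3 + a1 * w2 * h2 - a1 * z2 * h4
  · linear_combination (b1 * w1 + b3 * w3) * h1 - (b1 * z1 + b3 * z3) * h3 + a2 * w2 * h2 -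
      a2 * z2 * h4
  · linear_combination (-b3 * w2) * h1 + b3 * z2 * h3 + a3 * w2 * h2 - a3 * z2 * h4
  · linear_combination (-b1 * w3) * h1 + b1 * z3 * h3 + a1 * w3 * h2 - a1 * z3 * h4
  · linear_combination (-b2 * w3) * h1 + b2 * z3 * h3 + a2 * w3 * h2 - a2 * z3 * h4
  · linear_combination (b1 * w1 + b2 * w2) * h1 - (b1 * z1 + b2 * z2) * h3 + a3 * w3 * h2 -
      a3 * z3 * h4

theorem uniq {κ : F} (hκ : κ ≠ 0) {x y z w : Pt F} (hxy : x ≠ y) (h1 : bl κ x z = 0)
    (h2 : bl κ y z = 0) (h3 : bl κ x w = 0) (h4 : bl κ y w = 0) : z = w := by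
  unfold bl at h1 h2 h3 h4
  rcases cross (a1 := c2 x) (a2 := c1 x) (a3 := -κ * c3 x) (b1 := c2 y) (b2 := c1 y)
    (b3 := -κ * c3 y) (z1 := c1 z) (z2 := c2 z) (z3 := c3 z) (w1 := c1 w) (w2 := c2 w)
    (w3 := c3 w) (by linear_combination h1) (by linear_combination h2)
    (by linear_combination h3) (by linear_combination h4) with ⟨a, b, c⟩ | ⟨a, b, c⟩
  · refine absurd (pt_ext ?_ ?_ ?_) hxy
    · linear_combination -c
    · exact mul_left_cancel₀ hκ (by linear_combination -a)
    · exact mul_left_cancel₀ hκ (by linear_combination b)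
  · exact pt_ext (by linear_combination c) (by linear_combination -b) (by linear_combination a)

variable [Fintype F] [DecidableEq F]

omit [Field F] [DecidableEq F] in
theorem card_pt : Fintype.card (Pt F) = Fintype.card F ^ 2 + Fintype.card F + 1 := by
  simp [Fintype.card_sum, Fintype.card_prod, Fintype.card_option]; ring

theorem card_conj (κ : F) (v : Pt F) :
    Fintype.card F + 1 ≤ #{u | bl κ v u = 0} := by
  have key : ∀ g : Option F → Pt F, Function.Injective g → (∀ o, bl κ v (g o) = 0) →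
      Fintype.card F + 1 ≤ #{u | bl κ v u = 0} := by
    intro g hg h
    rw [← Fintype.card_option, ← card_univ]
    exact card_le_card_of_injOn g (fun o _ => by simp [h o]) hg.injOn
  rcases v with ⟨a, b⟩ | _ | s
  · by_cases ha : a = 0
    · by_cases hb : b = 0
      · exact key Sum.inr Sum.inr_injective fun o => by
          rcases o with _ | t <;> simp [bl, c1, c2, c3, ha, hb]
      · refine key (fun o => o.elim (Sum.inr none) fun t => Sum.inl (κ / b, t)) ?_ fun o => ?_
        · rintro (_ | t) (_ | t') h <;> simp_all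
        · rcases o with _ | t <;> simp [bl, c1, c2, c3, ha]
          field_simp
          ring
    · refine key (fun o => o.elim (Sum.inr (some (-b / a))) fun t => Sum.inl (t, (κ - b * t) / a))
        ?_ fun o => ?_
      · rintro (_ | t) (_ | t') h <;> simp_all
      · rcases o with _ | t <;> simp [bl, c1, c2, c3] <;> field_simp <;> ring
  · refine key (fun o => o.elim (Sum.inr none) fun t => Sum.inl (0, t)) ?_ fun o => ?_
    · rintro (_ | t) (_ | t') h <;> simp_all
    · rcases o with _ | t <;> simp [bl, c1, c2, c3]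
  · refine key (fun o => o.elim (Sum.inr (some (-s))) fun t => Sum.inl (t, -s * t)) ?_ fun o => ?_
    · rintro (_ | t) (_ | t') h <;> simp_all
    · rcases o with _ | t <;> simp [bl, c1, c2, c3]

/-- the polarity graph with the vertices of `S` removed -/
def pg (κ : F) (S : Finset (Pt F)) : SimpleGraph {u : Pt F // u ∉ S} where
  Adj u v := u ≠ v ∧ bl κ u.1 v.1 = 0
  symm := ⟨fun u v h => ⟨h.1.symm, by rw [bl_comm]; exact h.2⟩⟩
  loopless := ⟨fun u h => h.1 rfl⟩

theorem del {κ : F} (hκ : κ ≠ 0) (S : Finset (Pt F)) (d k n : ℕ)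
    (hS : ∀ v ∉ S, #{u ∈ insert v S | bl κ v u = 0} ≤ d) (hk : k + d = Fintype.card F + 1)
    (hn : n + k + #S = Fintype.card F ^ 2 + Fintype.card F + 1) (N : ℕ)
    (hN : ∀ G : SimpleGraph (Fin N), (cycleGraph 4).IsContained G ∨
      (completeBipartiteGraph (Fin 1) (Fin n)).IsContained Gᶜ) (h0 : 0 < n) : n + k < N := by
  classical
  have hW : Fintype.card {u : Pt F // u ∉ S} = n + k := by
    rw [Fintype.card_subtype_compl, card_pt, Fintype.card_coe]
    omega
  have hdeg : ∀ v, k ≤ (pg κ S).degree v := by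
    intro v
    have h1 := card_conj κ v.1
    have h2 := hS v.1 v.2
    have h3 : ({u | bl κ v.1 u = 0} : Finset (Pt F)) ⊆
        ((pg κ S).neighborFinset v).map (Function.Embedding.subtype _) ∪
          {u ∈ insert v.1 S | bl κ v.1 u = 0} := by
      intro u hu
      rw [mem_filter] at hu
      by_cases h : u ∈ insert v.1 S
      · exact mem_union_right _ (mem_filter.2 ⟨h, hu.2⟩)
      · rw [mem_insert, not_or] at h
        refine mem_union_left _ (mem_map.2 ⟨⟨u, h.2⟩, ?_, rfl⟩)
        rw [mem_neighborFinset]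
        exact ⟨fun e => h.1 (congrArg Subtype.val e).symm, hu.2⟩
    have h4 := (card_le_card h3).trans (card_union_le _ _)
    rw [card_map, card_neighborFinset_eq_degree] at h4
    omega
  have := not_mem_of_witness _ _ (pg κ S) ((noC4_iff _).2 fun x y z w hxy hzw a b c e =>
    hzw (Subtype.ext (uniq hκ (fun h => hxy (Subtype.ext h)) a.2 b.2 c.2 e.2))) (by
    rw [star_iff, not_exists]
    intro v
    have := hdeg v
    rw [degree_compl, hW]
    omega) N hN
  omega

end Pool.Agent.MP_45e593_co.Baer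

end

section

/- Baer subplanes that are invariant under the polarity. -/

namespace Pool.Agent.MP_45e593_co.Baer

open Finset SimpleGraph

variable {F : Type} [Field F] [Fintype F] [DecidableEq F]

theorem card_roots (a : ℕ) (ha : a ∣ Fintype.card F - 1) (h0 : a ≠ 0) :
    #{x : F | x ^ a = 1} = a := by
  have h := IsCyclic.card_powMonoidHom_ker (G := Fˣ) a
  rw [Nat.card_eq_fintype_card (α := Fˣ), Fintype.card_units, Nat.gcd_eq_right ha] at h
  rw [Nat.card_eq_fintype_card, ← card_univ] at h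
  refine Eq.trans (Eq.symm ?_) h
  refine card_bij (fun x _ => ((x.1 : Fˣ) : F)) (fun x _ => ?_) (fun x _ y _ e => ?_) fun y hy => ?_
  · have := x.2
    rw [MonoidHom.mem_ker, powMonoidHom_apply] at this
    rw [mem_filter, ← Units.val_pow_eq_pow_val, this]
    simp
  · exact Subtype.ext (Units.ext e)
  · rw [mem_filter] at hy
    have hy0 : y ≠ 0 := by
      rintro rfl
      simp [h0] at hy
    refine ⟨⟨Units.mk0 y hy0, ?_⟩, mem_univ _, rfl⟩
    rw [MonoidHom.mem_ker, powMonoidHom_apply]
    exact Units.ext (by simpa using hy.2)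

/-- the Baer subplane with parameter `c` -/
def BF (σ : F → F) (c : F) : Finset (Pt F) :=
  univ.image (fun z => Sum.inl (z, c * σ z)) ∪
    ({s | s * σ s = c ^ 2} : Finset F).image fun s => Sum.inr (some s)

/-- a line through the origin -/
def LF (F : Type) [Field F] [Fintype F] [DecidableEq F] : Finset (Pt F) :=
  insert (Sum.inr (some 0)) (univ.image fun x => Sum.inl (x, 0))

theorem inl_mem_BF {σ : F → F} {c a b : F} : Sum.inl (a, b) ∈ BF σ c ↔ b = c * σ a := by
  simp [BF, eq_comm]

theorem some_mem_BF {σ : F → F} {c s : F} : Sum.inr (some s) ∈ BF σ c ↔ s * σ s = c ^ 2 := by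
  simp [BF]

theorem none_mem_BF {σ : F → F} {c : F} : Sum.inr none ∉ BF σ c := by
  simp [BF]

theorem card_BF {σ : F → F} {r : ℕ} (hσ : ∀ x, σ x = x ^ r) (hr : r * r = Fintype.card F)
    {c : F} (hc : σ c = c) (h0 : c ≠ 0) : #(BF σ c) = Fintype.card F + r + 1 := by
  have h1 : #({s | s * σ s = c ^ 2} : Finset F) = r + 1 := by
    rw [← card_roots (F := F) (r + 1) ⟨r - 1, by rw [← hr, ← Nat.sq_sub_sq]; simp [sq]⟩ (by omega)]
    have hc' : c ^ (r + 1) = c ^ 2 := by rw [pow_succ, ← hσ, hc, sq]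
    refine card_bij (fun x _ => x / c) (fun x hx => ?_) (fun x _ y _ e => ?_) fun y hy => ?_
    · rw [mem_filter, hσ, ← pow_succ'] at hx
      rw [mem_filter, div_pow, hx.2, hc', div_self (pow_ne_zero _ h0)]
      simp
    · exact (div_left_inj' h0).1 e
    · rw [mem_filter] at hy
      refine ⟨y * c, ?_, by field_simp⟩
      rw [mem_filter, hσ, ← pow_succ', mul_pow, hy.2, hc']
      simp
  rw [BF, card_union_of_disjoint (by simp [Finset.disjoint_left]),
    card_image_of_injective _ (fun a b h => by simp at h; exact h.1),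
    card_image_of_injective _ (fun a b h => by simpa using h), h1, card_univ, add_assoc]

theorem card_LF : #(LF F) = Fintype.card F + 1 := by
  rw [LF, card_insert_of_notMem (by simp),
    card_image_of_injective _ (fun a b h => by simpa using h), card_univ]

theorem BF_uniq (σ : F →+* F) (hσ : ∀ x, σ (σ x) = x) {κ c : F} (hκ : σ κ = κ) (hκ0 : κ ≠ 0)
    (hc : σ c = c) {v : Pt F} (hv : v ∉ BF σ c) :
    #{u ∈ BF σ c | bl κ v u = 0} ≤ 1 := by
  have key : ∀ u ∈ BF σ c, bl κ v u = 0 →
      c ^ 2 * σ (c1 v) * c1 u + σ (c2 v) * c2 u + -κ * c * σ (c3 v) * c3 u = 0 := by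
    intro u hu h
    have h' := congrArg σ h
    rcases u with ⟨a, b⟩ | _ | s
    · rw [inl_mem_BF] at hu
      subst hu
      simp only [bl, map_sub, map_add, map_mul, map_zero, hκ] at h'
      simp only [c1, c2, c3, map_mul, map_one, hσ, hc] at h' ⊢
      linear_combination c * h'
    · exact absurd hu none_mem_BF
    · rw [some_mem_BF] at hu
      simp only [bl, map_sub, map_add, map_mul, map_zero, hκ] at h'
      simp only [c1, c2, c3, map_one, map_zero] at h' ⊢
      generalize v = v' at h' ⊢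
      rcases v' with ⟨x, y⟩ | _ | t
      · linear_combination s * h' - σ x * hu
      · linear_combination s * h' - σ 0 * hu
      · linear_combination s * h' - σ 1 * hu
  refine card_le_one.2 fun z hz w hw => ?_
  rw [mem_filter] at hz hw
  have h1 := hz.2
  have h2 := hw.2
  unfold bl at h1 h2
  rcases cross (a1 := c2 v) (a2 := c1 v) (a3 := -κ * c3 v) (by linear_combination h1)
    (key z hz.1 hz.2) (by linear_combination h2) (key w hw.1 hw.2) with ⟨a, b, e⟩ | ⟨a, b, e⟩
  · refine absurd ?_ hv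
    rcases v with ⟨x, y⟩ | _ | s
    · rw [inl_mem_BF]
      simp only [c1, c2, c3, map_one] at a
      have a1 : σ y = c * x := mul_left_cancel₀ hκ0 (by linear_combination a)
      rw [← hσ y, a1, map_mul, hc]
    · simp [c1, c2] at e
    · rw [some_mem_BF]
      simp only [c1, c2, map_one] at e
      linear_combination e
  · exact pt_ext (by linear_combination e) (by linear_combination -b) (by linear_combination a)

theorem LF_conj (κ : F) {u : Pt F} (hu : u ∈ LF F) : bl κ (Sum.inr (some 0)) u = 0 := by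
  rcases mem_insert.1 hu with rfl | h
  · simp [bl, c1, c2, c3]
  · obtain ⟨x, -, rfl⟩ := mem_image.1 h
    simp [bl, c1, c2, c3]

omit [Fintype F] in
theorem line_uniq {κ : F} (hκ : κ ≠ 0) {v p : Pt F} (hv : v ≠ p) {T : Finset (Pt F)}
    (hT : ∀ u ∈ T, bl κ p u = 0) : #{u ∈ T | bl κ v u = 0} ≤ 1 :=
  card_le_one.2 fun z hz w hw =>
    uniq hκ hv (mem_filter.1 hz).2 (hT z (mem_filter.1 hz).1) (mem_filter.1 hw).2
      (hT w (mem_filter.1 hw).1)

end Pool.Agent.MP_45e593_co.Baer

end

section

/- The deleted vertex sets, in even and in odd characteristic. -/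

namespace Pool.Agent.MP_45e593_co.Baer

open Finset SimpleGraph

variable {F : Type} [Field F] [Fintype F] [DecidableEq F]

omit [DecidableEq F] in
theorem two_le_r {r : ℕ} (hr : r * r = Fintype.card F) : 2 ≤ r := by
  have := Fintype.one_lt_card (α := F)
  by_contra h
  have : r ≤ 1 := by omega
  nlinarith

theorem even_set (σ : F →+* F) (hσ : ∀ x, σ (σ x) = x) {r : ℕ} (hσr : ∀ x, σ x = x ^ r)
    (hr : r * r = Fintype.card F) (h2 : (2 : F) = 0) (a τ : ℕ) (ha : a + 1 ≤ r)
    (hτ : τ ≤ Fintype.card F) :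
    ∃ S : Finset (Pt F), #S = 1 + a * (Fintype.card F + r) + τ ∧
      ∀ v ∉ S, #{u ∈ insert v S | bl 1 v u = 0} ≤ max 2 (a + min τ 1) := by
  have hr2 := two_le_r hr
  obtain ⟨C, hC, hCa⟩ := exists_subset_card_eq (s := ({x | x ^ (r - 1) = 1} : Finset F)) (n := a)
    (by
      rw [card_roots (r - 1) ⟨r + 1, by rw [← hr, mul_comm (r - 1), ← Nat.sq_sub_sq]; simp [sq]⟩
        (by omega)]
      omega)
  have hC' : ∀ c ∈ C, σ c = c ∧ c ≠ 0 := by
    intro c hc
    have h := (mem_filter.1 (hC hc)).2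
    refine ⟨?_, ?_⟩
    · rw [hσr, show r = r - 1 + 1 by omega, pow_succ, h, one_mul]
    · rintro rfl
      rw [zero_pow (by omega)] at h
      exact zero_ne_one h
  let P : Pt F := Sum.inl (0, 0)
  let p : Pt F := Sum.inr (some 0)
  have hPL : P ∈ LF F := by simp [P, LF]
  have hPB : ∀ c, P ∈ BF σ c := fun c => by simp [P, inl_mem_BF]
  obtain ⟨T, hT, hTc, hp⟩ : ∃ T : Finset (Pt F), T ⊆ (LF F).erase P ∧ #T = τ ∧ (T = ∅ ∨ p ∈ T) := by
    rcases Nat.eq_zero_or_pos τ with rfl | h
    · exact ⟨∅, empty_subset _, rfl, Or.inl rfl⟩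
    · obtain ⟨T, h1, h3, h4⟩ := exists_subsuperset_card_eq (s := {p}) (t := (LF F).erase P) (n := τ)
        (by simp [p, P, LF]) (by rw [card_singleton]; exact h) (by rw [card_erase_of_mem hPL, card_LF]; omega)
      exact ⟨T, h3, h4, Or.inr (h1 (mem_singleton_self _))⟩
  have hTL : ∀ u ∈ T, bl 1 p u = 0 := fun u hu => LF_conj 1 (mem_erase.1 (hT hu)).2
  refine ⟨insert P (C.biUnion fun c => (BF σ c).erase P) ∪ T, ?_, fun v hv => ?_⟩
  · rw [card_union_of_disjoint, card_insert_of_notMem (by simp), card_biUnion, hTc,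
      sum_congr rfl (g := fun _ => Fintype.card F + r) fun c hc => by
        rw [card_erase_of_mem (hPB c), card_BF hσr hr (hC' c hc).1 (hC' c hc).2]
        rfl]
    · rw [sum_const, hCa, smul_eq_mul, add_comm _ 1]
    · intro c hc c' hc' hne
      refine Finset.disjoint_left.2 fun u hu hu' => ?_
      rw [mem_erase] at hu hu'
      rcases u with ⟨x, y⟩ | _ | s
      · rw [inl_mem_BF] at hu hu'
        have h1 : σ x = 0 := by
          by_contra h0
          exact hne (mul_right_cancel₀ h0 (hu.2.symm.trans hu'.2))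
        apply hu.1
        rw [hu.2, h1, ← hσ x, h1]
        simp [P]
      · exact none_mem_BF hu.2
      · rw [some_mem_BF] at hu hu'
        apply hne
        refine sub_eq_zero.1 (pow_eq_zero_iff (n := 2) (by norm_num)|>.1 ?_)
        linear_combination hu'.2 - hu.2 + (c' ^ 2 - c * c') * h2
    · refine Finset.disjoint_right.2 fun u hu hu' => ?_
      have h1 := mem_erase.1 (hT hu)
      rw [mem_insert, mem_biUnion] at hu'
      obtain ⟨c, hc, h3⟩ := hu'.resolve_left h1.1
      have h4 := (mem_erase.1 h3).2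
      rcases mem_insert.1 h1.2 with rfl | h
      · rw [some_mem_BF, zero_mul] at h4
        exact pow_ne_zero 2 (hC' c hc).2 h4.symm
      · obtain ⟨x, -, rfl⟩ := mem_image.1 h
        rw [inl_mem_BF] at h4
        have h5 := (mul_eq_zero.1 h4.symm).resolve_left (hC' c hc).2
        apply h1.1
        rw [← hσ x, h5]
        simp [P]
  · rw [mem_union, mem_insert, mem_biUnion, not_or, not_or] at hv
    have hvB : ∀ c ∈ C, v ∉ BF σ c := fun c hc h => hv.1.2 ⟨c, hc, mem_erase.2 ⟨hv.1.1, h⟩⟩
    have hB : ∀ c ∈ C, #{u ∈ BF σ c | bl 1 v u = 0} ≤ 1 := fun c hc =>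
      BF_uniq σ hσ (map_one σ) one_ne_zero (hC' c hc).1 (hvB c hc)
    rcases v with x | o
    · refine le_max_of_le_right ?_
      have h1 : #{u ∈ T | bl 1 (Sum.inl x) u = 0} ≤ min τ 1 :=
        le_min (hTc ▸ card_filter_le _ _) (line_uniq one_ne_zero (by simp [p]) hTL)
      have h3 : #(C.biUnion fun c => {u ∈ BF σ c | bl 1 (Sum.inl x) u = 0}) ≤ a := by
        refine card_biUnion_le.trans ((sum_le_sum hB).trans ?_)
        simp [hCa]
      refine (card_le_card fun u hu => ?_).trans ((card_union_le _ _).trans (add_le_add h3 h1))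
      rw [mem_filter, mem_insert, mem_union, mem_insert, mem_biUnion] at hu
      rcases hu.1 with rfl | (rfl | ⟨c, hc, h⟩) | h
      · have := hu.2
        simp only [bl, c1, c2, c3] at this
        exact absurd (by linear_combination -this + x.1 * x.2 * h2) (one_ne_zero (α := F))
      · have := hu.2
        simp [bl, c1, c2, c3, P] at this
      · exact mem_union_left _ (mem_biUnion.2 ⟨c, hc, mem_filter.2 ⟨(mem_erase.1 h).2, hu.2⟩⟩)
      · exact mem_union_right _ (mem_filter.2 ⟨h, hu.2⟩)
    · refine le_max_of_le_left ((card_le_card (t := {Sum.inr o, P}) fun u hu => ?_).trans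
        card_le_two)
      have hvP : bl 1 (Sum.inr o) P = 0 := by simp [bl, c1, c2, c3, P]
      rw [mem_filter, mem_insert, mem_union, mem_insert, mem_biUnion] at hu
      rcases hu.1 with rfl | (rfl | ⟨c, hc, h⟩) | h
      · simp
      · simp
      · exact absurd (card_le_one.1 (hB c hc) u (mem_filter.2 ⟨(mem_erase.1 h).2, hu.2⟩) P
          (mem_filter.2 ⟨hPB c, hvP⟩)) (mem_erase.1 h).1
      · have hvp : Sum.inr o ≠ p := by
          rintro e
          rcases hp with rfl | hp
          · simp at h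
          · exact hv.2 (e ▸ hp)
        exact absurd (uniq one_ne_zero hvp hu.2 (hTL u h) hvP (LF_conj 1 hPL))
          (mem_erase.1 (hT h)).1

theorem odd_del {B T : Finset (Pt F)} (h2 : (2 : F) ≠ 0) {h : ℕ} (hh : 2 * h + 1 = Fintype.card F)
    (hB : ∀ v ∉ B, #{u ∈ B | bl (-2) v u = 0} ≤ 1) (hP : Sum.inl (0, 0) ∈ B)
    (hT : ∀ u ∈ T, u = Sum.inr none ∨ u = Sum.inr (some 0) ∨
      ∃ s : F, u = Sum.inr (some s) ∧ s ^ h ≠ 1) (v : Pt F) (hv : v ∉ B ∪ T) :
    #{u ∈ insert v (B ∪ T) | bl (-2) v u = 0} ≤ 2 := by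
  rw [mem_union, not_or] at hv
  have h1 := hB v hv.1
  by_cases h0 : bl (-2) v v = 0
  · refine (card_le_card (t := insert v {u ∈ B | bl (-2) v u = 0}) fun u hu => ?_).trans
      ((card_insert_le _ _).trans (by omega))
    rw [mem_filter, mem_insert, mem_union] at hu
    rcases hu.1 with rfl | h3 | h3
    · exact mem_insert_self _ _
    · exact mem_insert_of_mem (mem_filter.2 ⟨h3, hu.2⟩)
    · exfalso
      have h4 := hu.2
      rcases v with ⟨a, b⟩ | _ | t
      · simp only [bl, c1, c2, c3] at h0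
        have hab : a * b = -1 := mul_left_cancel₀ h2 (by linear_combination h0)
        rcases hT u h3 with rfl | rfl | ⟨s, rfl, hs⟩ <;> simp only [bl, c1, c2, c3] at h4
        · exact one_ne_zero (α := F) (by linear_combination hab - b * h4)
        · exact one_ne_zero (α := F) (by linear_combination hab - a * h4)
        · apply hs
          have hb : b ≠ 0 := by
            rintro rfl
            simp at hab
          have : s = b ^ 2 := by linear_combination s * hab - b * h4
          rw [this, ← pow_mul, show 2 * h = Fintype.card F - 1 by omega]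
          exact FiniteField.pow_card_sub_one_eq_one b hb
      · rcases hT u h3 with rfl | rfl | ⟨s, rfl, hs⟩
        · exact hv.2 h3
        · simp [bl, c1, c2, c3] at h4
        · simp [bl, c1, c2, c3] at h4
      · simp only [bl, c1, c2, c3] at h0
        have ht : t = 0 := mul_left_cancel₀ h2 (by linear_combination h0)
        subst ht
        rcases hT u h3 with rfl | rfl | ⟨s, rfl, hs⟩
        · simp [bl, c1, c2, c3] at h4
        · exact hv.2 h3
        · have : s = 0 := by simpa [bl, c1, c2, c3] using h4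
          subst this
          exact hv.2 h3
  · have h3 : #{u ∈ T | bl (-2) v u = 0} ≤ 1 :=
      line_uniq (p := Sum.inl (0, 0)) (neg_ne_zero.2 h2) (fun e => hv.1 (by rw [e]; exact hP)) fun u hu => by
        rcases hT u hu with rfl | rfl | ⟨s, rfl, -⟩ <;> simp [bl, c1, c2, c3]
    refine (card_le_card fun u hu => ?_).trans ((card_union_le _ _).trans (add_le_add h1 h3))
    rw [mem_filter, mem_insert, mem_union] at hu
    rcases hu.1 with rfl | h4 | h4
    · exact absurd hu.2 h0
    · exact mem_union_left _ (mem_filter.2 ⟨h4, hu.2⟩)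
    · exact mem_union_right _ (mem_filter.2 ⟨h4, hu.2⟩)

theorem odd_set (σ : F →+* F) (hσ : ∀ x, σ (σ x) = x) {r : ℕ} (hσr : ∀ x, σ x = x ^ r)
    (hr : r * r = Fintype.card F) (h2 : (2 : F) ≠ 0) (hodd : Odd r) (t : ℕ)
    (ht : 2 * t ≤ Fintype.card F + 1 + 2 * r) :
    ∃ S : Finset (Pt F), #S = Fintype.card F + 2 + t ∧
      ∀ v ∉ S, #{u ∈ insert v S | bl (-2) v u = 0} ≤ 2 := by
  have hr2 := two_le_r hr
  obtain ⟨j, hj⟩ := hodd
  have hh : 2 * ((r + 1) * j) + 1 = Fintype.card F := by rw [← hr, hj]; ring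
  have hj0 : 1 ≤ j := by omega
  set h := (r + 1) * j with hdef
  have hh0 : r + 1 ≤ h := Nat.le_mul_of_pos_right _ hj0
  let R : Finset (Pt F) := insert (Sum.inr none)
    (({s | s ^ h ≠ 1} : Finset F).image fun s => Sum.inr (some s))
  have hR : #R = h + 2 := by
    rw [card_insert_of_notMem (by simp),
      card_image_of_injective _ (fun a b h => by simpa using h)]
    have e1 := card_filter_add_card_filter_not (s := (univ : Finset F)) fun s => s ^ h = 1
    rw [card_roots h ⟨2, by omega⟩ (by omega), card_univ] at e1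
    simp only [ne_eq]
    omega
  have hRT : ∀ u ∈ R, u = Sum.inr none ∨ u = Sum.inr (some 0) ∨
      ∃ s : F, u = Sum.inr (some s) ∧ s ^ h ≠ 1 := by
    intro u hu
    rcases mem_insert.1 hu with rfl | h3
    · exact Or.inl rfl
    · obtain ⟨s, hs, rfl⟩ := mem_image.1 h3
      exact Or.inr (Or.inr ⟨s, rfl, (mem_filter.1 hs).2⟩)
  by_cases htr : r ≤ t + 1
  · obtain ⟨T, hT, hTc⟩ := exists_subset_card_eq (s := R) (n := t + 1 - r) (by omega)
    refine ⟨BF σ 1 ∪ T, ?_, odd_del h2 hh (fun v hv => BF_uniq σ hσ (by simp [map_ofNat])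
      (neg_ne_zero.2 h2) (map_one σ) hv) (by simp [inl_mem_BF]) fun u hu => hRT u (hT hu)⟩
    rw [card_union_of_disjoint, card_BF hσr hr (map_one σ) one_ne_zero, hTc]
    · omega
    · refine Finset.disjoint_right.2 fun u hu hu' => ?_
      rcases mem_insert.1 (hT hu) with rfl | h3
      · exact none_mem_BF hu'
      · obtain ⟨s, hs, rfl⟩ := mem_image.1 h3
        rw [some_mem_BF, hσr, ← pow_succ', one_pow] at hu'
        apply (mem_filter.1 hs).2
        rw [hdef, pow_mul, hu', one_pow]
  · obtain ⟨T, hT, hTc⟩ := exists_subset_card_eq (s := R.erase (Sum.inr (some 0))) (n := t + 1)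
      (by have := pred_card_le_card_erase (s := R) (a := Sum.inr (some 0)); omega)
    refine ⟨LF F ∪ T, ?_, odd_del h2 hh (fun v hv => line_uniq (p := Sum.inr (some 0))
      (neg_ne_zero.2 h2) (fun e => hv (by simp [e, LF])) fun u hu => LF_conj _ hu) (by simp [LF])
      fun u hu => hRT u (mem_erase.1 (hT hu)).2⟩
    rw [card_union_of_disjoint, card_LF, hTc]
    · omega
    · refine Finset.disjoint_right.2 fun u hu hu' => ?_
      have h3 := mem_erase.1 (hT hu)
      rcases mem_insert.1 hu' with rfl | h4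
      · exact h3.1 rfl
      · obtain ⟨x, -, rfl⟩ := mem_image.1 h4
        simp [R] at h3

end Pool.Agent.MP_45e593_co.Baer

end

section

/- Elementary upper bounds: counting, parity, and triangles modulo three. -/

namespace Pool.Agent.MP_45e593_co.Baer

open Finset SimpleGraph

/-- every graph on `N` vertices contains a 4-cycle or has an `n`-star in its complement -/
def Good (n N : ℕ) : Prop :=
  ∀ G : SimpleGraph (Fin N), (cycleGraph 4).IsContained G ∨
    (completeBipartiteGraph (Fin 1) (Fin n)).IsContained Gᶜ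

theorem good_of (n k : ℕ) (h : ∀ (G : SimpleGraph (Fin (n + k))) [DecidableRel G.Adj], NoC4 G →
    (∀ x, k ≤ G.degree x) → False) : Good n (n + k) := by
  classical
  intro G
  by_contra hn
  rw [not_or, noC4_iff, star_iff, not_exists] at hn
  exact h G hn.1 fun x => by
    have := hn.2 x
    rw [degree_compl, Fintype.card_fin] at this
    omega

variable {V : Type*} [Fintype V] [DecidableEq V]

theorem deg_le (G : SimpleGraph V) [DecidableRel G.Adj] (k : ℕ) (h : NoC4 G)
    (hd : ∀ x, k ≤ G.degree x) (x : V) :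
    (G.degree x : ℤ) * k ≤ G.degree x + (Fintype.card V - 1) := by
  have h1 : (G.degree x : ℤ) * k ≤ ∑ y, (G.adjMatrix ℤ * G.adjMatrix ℤ) x y := by
    rw [sq_row, ← card_neighborFinset_eq_degree, ← nsmul_eq_mul, ← sum_const]
    exact sum_le_sum fun z _ => by exact_mod_cast hd z
  refine h1.trans ?_
  rw [← add_sum_erase _ _ (mem_univ x), G.adjMatrix_mul_self_apply_self]
  refine add_le_add le_rfl ((sum_le_sum fun y hy => sq_le_one G h (mem_erase.1 hy).1.symm).trans
    (le_of_eq ?_))
  rw [sum_const, card_erase_of_mem (mem_univ x), card_univ, nsmul_eq_mul, mul_one,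
    Nat.cast_sub (Fintype.card_pos_iff.2 ⟨x⟩), Nat.cast_one]

theorem up_small (m n : ℕ) (h : n < m ^ 2) : Good n (n + (m + 1)) := by
  refine good_of n (m + 1) fun G _ h1 h2 => ?_
  have h3 := deg_le G (m + 1) h1 h2 ⟨0, by omega⟩
  have h4 : ((m + 1 : ℕ) : ℤ) ≤ G.degree ⟨0, by omega⟩ := by exact_mod_cast h2 _
  have h5 : (n : ℤ) < m ^ 2 := by exact_mod_cast h
  rw [Fintype.card_fin] at h3
  push_cast at h3 h4
  nlinarith

theorem up_par (m n : ℕ) (hm : Odd m) (hn : Even n) (h : n + m < m ^ 2) : Good n (n + m) := by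
  refine good_of n m fun G _ h1 h2 => ?_
  have hreg : ∀ x, G.degree x = m := by
    intro x
    refine le_antisymm ?_ (h2 x)
    by_contra h0
    have h3 := deg_le G m h1 h2 x
    have h4 : (m : ℤ) + 1 ≤ G.degree x := by exact_mod_cast not_le.1 h0
    have h5 : (n : ℤ) + m < m ^ 2 := by exact_mod_cast h
    have h6 : (1 : ℤ) ≤ m := by exact_mod_cast hm.pos
    rw [Fintype.card_fin] at h3
    push_cast at h3
    nlinarith
  have h3 := G.sum_degrees_eq_twice_card_edges
  simp only [hreg, sum_const, card_univ, smul_eq_mul, Fintype.card_fin] at h3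
  have h4 : Odd ((n + m) * m) := (hn.add_odd hm).mul hm
  rw [h3] at h4
  exact Nat.not_odd_iff_even.2 (even_two_mul _) h4

theorem up_low (m t : ℕ) (ht : t ≤ 1) (hm : m % 6 = 3) : Good (m ^ 2 + t) (m ^ 2 + t + (m + 1)) := by
  refine good_of _ (m + 1) fun G _ h hd => ?_
  set A := G.adjMatrix ℤ with hA
  have hm3 : (3 : ℤ) ≤ m := by omega
  have ht' : (t : ℤ) ≤ 1 := by omega
  have hreg : ∀ x, G.degree x = m + 1 := by
    intro x
    refine le_antisymm ?_ (hd x)
    by_contra h0
    have h3 := deg_le G (m + 1) h hd x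
    have h4 : (m : ℤ) + 2 ≤ G.degree x := by exact_mod_cast not_le.1 h0
    rw [Fintype.card_fin] at h3
    push_cast at h3
    nlinarith
  have hdiag : ∀ x, (A * A) x x = m + 1 := fun x => by
    rw [hA, G.adjMatrix_mul_self_apply_self, hreg]
    simp
  let B : Matrix _ _ ℤ := fun i j => (if i = j then (m : ℤ) else 0) + 1 - (A * A) i j
  have hsym : ∀ i j, A i j = A j i := fun i j => by simp [hA, adjMatrix_apply, adj_comm]
  have htr : ∀ i, A i i = 0 := fun i => by simp [hA]
  have hrow : ∀ i, ∑ j, A i j = m + 1 := fun i => by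
    have := hreg i
    rw [← card_neighborFinset_eq_degree, neighborFinset_eq_filter] at this
    simp [hA, adjMatrix_apply, this]
  have hB0 : ∀ i j, 0 ≤ B i j := by
    intro i j
    by_cases hij : i = j
    · subst hij
      simp [B, hdiag]
    · have := sq_le_one G h hij
      simp only [B, hij, if_false]
      linarith
  have hBrow : ∀ i, ∑ j, B i j = t := by
    intro i
    simp only [B, sum_sub_distrib, sum_add_distrib, sum_ite_eq, mem_univ, if_true, sum_const,
      card_univ, nsmul_eq_mul, mul_one, Fintype.card_fin]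
    rw [sq_row]
    simp only [hreg, sum_const, card_neighborFinset_eq_degree, nsmul_eq_mul]
    push_cast
    ring
  have hc : ∀ x, (A * A * A) x x = m + 1 := by
    intro x
    have h1 : (A * A * A) x x = m + 1 - ∑ y, A x y * B x y := by
      rw [Matrix.mul_apply, ← hrow x, ← sum_sub_distrib]
      refine sum_congr rfl fun y _ => ?_
      by_cases hxy : x = y
      · subst hxy
        simp [htr]
      · simp only [B, hxy, if_false, hsym y x]
        ring
    have h2 : 0 ≤ ∑ y, A x y * B x y := sum_nonneg fun y _ => mul_nonneg (by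
      simp only [hA, adjMatrix_apply]
      split_ifs <;> norm_num) (hB0 x y)
    have h3 : ∑ y, A x y * B x y ≤ t := by
      rw [← hBrow x]
      refine sum_le_sum fun y _ => mul_le_of_le_one_left (hB0 x y) ?_
      simp only [hA, adjMatrix_apply]
      split_ifs <;> norm_num
    obtain ⟨a, ha⟩ := cube_even A hsym htr x
    omega
  have h1 : (A * A * A).trace = (m ^ 2 + t + (m + 1)) * (m + 1) := by
    simp [Matrix.trace, hc]
  have h6 : ∀ s : ZMod 3, s = 0 ∨ s = 1 → (0 ^ 2 + s + (0 + 1)) * (0 + 1) ≠ 0 ^ 3 := by decide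
  have h2 := ZMod.trace_pow_card (p := 3) ((Int.castRingHom (ZMod 3)).mapMatrix A)
  rw [← map_pow, pow_three'] at h2
  have h3 : ∀ M : Matrix (Fin (m ^ 2 + t + (m + 1))) (Fin (m ^ 2 + t + (m + 1))) ℤ,
      ((Int.castRingHom (ZMod 3)).mapMatrix M).trace = (M.trace : ZMod 3) := fun M => by
    simp [Matrix.trace]
  have h4 : A.trace = 0 := by simp [Matrix.trace, htr]
  rw [h3, h3, h1, h4] at h2
  have h5 : (m : ZMod 3) = 0 := (ZMod.natCast_eq_zero_iff m 3).2 (by omega)
  push_cast at h2
  rw [h5] at h2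
  exact h6 t (by interval_cases t <;> simp) h2

end Pool.Agent.MP_45e593_co.Baer

end

section

/- Exact values in odd characteristic. -/

namespace Pool.Agent.MP_45e593_co.Baer

open Finset SimpleGraph

theorem exact_of {n k : ℕ} (up : Good n (n + (k + 1))) (low : ∀ N, Good n N → n + k < N) :
    ramsey (cycleGraph 4) (completeBipartiteGraph (Fin 1) (Fin n)) = n + (k + 1) :=
  le_antisymm (Nat.sInf_le ⟨by omega, up⟩)
    (le_csInf ⟨n + (k + 1), by omega, up⟩ fun N hN => low N hN.2)

theorem field_setup (p e : ℕ) [Fact p.Prime] (he : 1 ≤ e) [Fintype (GaloisField p (2 * e))] :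
    p ^ e * p ^ e = Fintype.card (GaloisField p (2 * e)) ∧
      ∃ σ : GaloisField p (2 * e) →+* GaloisField p (2 * e),
        (∀ x, σ (σ x) = x) ∧ ∀ x, σ x = x ^ p ^ e := by
  have hc : p ^ e * p ^ e = Fintype.card (GaloisField p (2 * e)) := by
    rw [← Nat.card_eq_fintype_card, GaloisField.card p (2 * e) (by omega), ← pow_add, two_mul]
  refine ⟨hc, iterateFrobenius _ p e, fun x => ?_, fun x => iterateFrobenius_def ..⟩
  rw [iterateFrobenius_def, iterateFrobenius_def, ← pow_mul, hc, FiniteField.pow_card]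

theorem exact_odd (p e t : ℕ) (hp : p.Prime) (h2 : p ≠ 2) (he : 1 ≤ e) (ht : Even t) (h0 : 0 < t)
    (h1 : 2 * t ≤ p ^ (2 * e) + 1 + 2 * p ^ e) :
    ramsey (cycleGraph 4)
      (completeBipartiteGraph (Fin 1) (Fin (p ^ (2 * e) * (p ^ (2 * e) - 1) - t))) =
      (p ^ (2 * e)) ^ 2 - t := by
  classical
  have : Fact p.Prime := ⟨hp⟩
  let _ : Fintype (GaloisField p (2 * e)) := Fintype.ofFinite _
  obtain ⟨hc, σ, h3, h4⟩ := field_setup p e he
  have hq : p ^ (2 * e) = p ^ e * p ^ e := by rw [← pow_add, two_mul]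
  have hodd : Odd (p ^ e) := (hp.odd_of_ne_two h2).pow
  have hr2 := two_le_r hc
  have htwo : (2 : GaloisField p (2 * e)) ≠ 0 := fun h =>
    h2 ((Nat.prime_dvd_prime_iff_eq hp Nat.prime_two).1
      ((CharP.cast_eq_zero_iff (GaloisField p (2 * e)) p 2).1 (by exact_mod_cast h)))
  obtain ⟨S, hS, hd⟩ := odd_set σ h3 h4 hc htwo hodd t (by omega)
  generalize p ^ e = r at *
  obtain ⟨k, hk⟩ : ∃ k, p ^ (2 * e) = k + 1 := ⟨r * r - 1, by have : 0 < r * r := by positivity
                                                              omega⟩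
  have hko : Odd (k + 1) := by rw [← hk, hq]; exact hodd.mul hodd
  rw [hk] at h1 hq ⊢
  rw [Nat.add_sub_cancel]
  have hr3 : 3 ≤ r := by obtain ⟨j, hj⟩ := hodd; omega
  have e0 : 3 * r ≤ k + 1 := by nlinarith
  have e1 : (k + 1) ^ 2 = (k + 1) * k + (k + 1) := by ring
  have e3 : 2 * (k + 1) ≤ (k + 1) * k := by nlinarith
  rw [show (k + 1) ^ 2 - t = (k + 1) * k - t + (k + 1) by omega]
  refine exact_of (up_par (k + 1) _ hko ?_ (by omega)) fun N hN => ?_
  · rw [Nat.even_sub (by omega), mul_comm]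
    exact iff_of_true (Nat.even_mul_succ_self k) ht
  · exact del (neg_ne_zero.2 htwo) S 2 k _ hd (by omega) (by rw [hS, ← hc, ← hq]; omega) N hN
      (by omega)

end Pool.Agent.MP_45e593_co.Baer

end
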