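import Mathlib

section

/- The signature of a symmetric square root of `K - B` as a series in traces. -/

namespace Pool.Agent.MP_45e593_co.T3

open Matrix Finset

/-- Coefficients of the series of `1 / sqrt (1 - x)`. -/
noncomputable def cc (n : ℕ) : ℝ := Ring.choose (1 / 2 + n - 1 : ℝ) n

theorem cc_fact (n : ℕ) : (n.factorial : ℝ) * cc n = (ascPochhammer ℝ n).eval (1 / 2) := by
  rw [cc, ← Ring.multichoose_eq, ← nsmul_eq_mul, Ring.factorial_nsmul_multichoose_eq_ascPochhammer,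
    Polynomial.ascPochhammer_smeval_eq_eval]

theorem cc_zero : cc 0 = 1 := by simpa using cc_fact 0

theorem cc_succ (n : ℕ) : cc (n + 1) = cc n * ((2 * n + 1) / (2 * n + 2)) := by
  have h := cc_fact (n + 1)
  rw [ascPochhammer_succ_eval, ← cc_fact, Nat.factorial_succ] at h
  have h0 : (n.factorial : ℝ) ≠ 0 := by exact_mod_cast n.factorial_ne_zero
  push_cast at h
  have h1 : ((n : ℝ) + 1) * cc (n + 1) = cc n * (1 / 2 + n) :=
    mul_left_cancel₀ h0 (by linear_combination h)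
  field_simp
  linear_combination 2 * h1

theorem cc_nonneg (n : ℕ) : 0 ≤ cc n := by
  induction n with
  | zero => rw [cc_zero]; norm_num
  | succ n ih => rw [cc_succ]; positivity

theorem cc_anti : Antitone cc := antitone_nat_of_succ_le fun n => by
  rw [cc_succ]
  refine mul_le_of_le_one_right (cc_nonneg n) ?_
  rw [div_le_one (by positivity)]; linarith

theorem cc_one : cc 1 = 1 / 2 := by rw [cc_succ, cc_zero]; norm_num
theorem cc_two : cc 2 = 3 / 8 := by rw [cc_succ, cc_one]; norm_num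
theorem cc_three : cc 3 = 5 / 16 := by rw [cc_succ, cc_two]; norm_num
theorem cc_four : cc 4 = 35 / 128 := by rw [cc_succ, cc_three]; norm_num
theorem cc_five : cc 5 = 63 / 256 := by rw [cc_succ, cc_four]; norm_num

theorem hasSum_cc {x : ℝ} (hx : |x| < 1) : HasSum (fun n => cc n * x ^ n) (1 / √(1 - x)) := by
  have h := (Real.one_div_one_sub_rpow_hasFPowerSeriesOnBall_zero (1 / 2)).hasSum (y := x) (by
    rw [Metric.mem_eball, edist_zero_right, ← ofReal_norm, ENNReal.ofReal_lt_one]; exact hx)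
  simp only [FormalMultilinearSeries.ofScalars_apply_eq, smul_eq_mul, zero_add] at h
  rw [Real.sqrt_eq_rpow]
  exact h

variable {V : Type*} [Fintype V] [DecidableEq V]

omit [DecidableEq V] in
theorem eig_le (B : Matrix V V ℝ) (t : ℝ) (hB : ∀ i j, 0 ≤ B i j) (hrow : ∀ i, ∑ j, B i j = t)
    (w : V → ℝ) (μ : ℝ) (hw : B *ᵥ w = μ • w) (h0 : w ≠ 0) : |μ| ≤ t := by
  obtain ⟨j, hj⟩ := Function.ne_iff.1 h0
  obtain ⟨i, -, hi⟩ := exists_max_image univ (fun i => |w i|) ⟨j, mem_univ j⟩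
  have hpos : 0 < |w i| := lt_of_lt_of_le (abs_pos.2 hj) (hi j (mem_univ j))
  have h3 : μ * w i = ∑ j, B i j * w j := (congrFun hw i).symm
  have h4 : |∑ j, B i j * w j| ≤ t * |w i| := by
    refine (abs_sum_le_sum_abs _ _).trans ?_
    rw [← hrow i, sum_mul]
    refine sum_le_sum fun j _ => ?_
    rw [abs_mul, abs_of_nonneg (hB i j)]
    exact mul_le_mul_of_nonneg_left (hi j (mem_univ j)) (hB i j)
  rw [← h3, abs_mul] at h4
  exact le_of_mul_le_mul_right h4 hpos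

theorem trace_form {H : Matrix V V ℝ} (hH : H.IsHermitian) (K : ℝ) (n : ℕ) :
    (H * (K • (1 : Matrix V V ℝ) - H * H) ^ n).trace =
      ∑ i, hH.eigenvalues i * (K - hH.eigenvalues i ^ 2) ^ n := by
  have e : (diagonal fun i => hH.eigenvalues i * (K - hH.eigenvalues i ^ 2) ^ n) =
      diagonal hH.eigenvalues * (K • (1 : Matrix V V ℝ) -
        diagonal hH.eigenvalues * diagonal hH.eigenvalues) ^ n := by
    rw [diagonal_mul_diagonal, ← diagonal_one, ← diagonal_smul, diagonal_sub, diagonal_pow,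
      diagonal_mul_diagonal]
    congr 1
    ext i
    simp [sq]
  have h1 : H = Unitary.conjStarAlgAut ℝ _ hH.eigenvectorUnitary (diagonal hH.eigenvalues) := by
    conv_lhs => rw [hH.spectral_theorem]
    congr 2
  have h : H * (K • (1 : Matrix V V ℝ) - H * H) ^ n = Unitary.conjStarAlgAut ℝ _
      hH.eigenvectorUnitary
      (diagonal fun i => hH.eigenvalues i * (K - hH.eigenvalues i ^ 2) ^ n) := by
    rw [e, map_mul, map_pow, map_sub, map_smul, map_one, map_mul, ← h1]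
  rw [h, Unitary.conjStarAlgAut_apply, trace_mul_comm, ← mul_assoc]
  simp

theorem sig_sum {H B : Matrix V V ℝ} (hH : H.IsHermitian) {K t : ℝ} (ht : 0 ≤ t) (hK : t < K)
    (hB : ∀ i j, 0 ≤ B i j) (hrow : ∀ i, ∑ j, B i j = t)
    (h2 : H * H = K • (1 : Matrix V V ℝ) - B) :
    ∃ S : ℤ, Even (S + Fintype.card V) ∧
      HasSum (fun n => cc n * ((H * B ^ n).trace / K ^ n)) (√K * S) := by
  have hK0 : 0 < K := ht.trans_lt hK
  have hB' : B = K • (1 : Matrix V V ℝ) - H * H := by rw [h2]; simp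
  have hb : ∀ i, |K - hH.eigenvalues i ^ 2| ≤ t := fun i => by
    refine eig_le B t hB hrow (hH.eigenvectorBasis i) _ ?_ ?_
    · rw [hB', sub_mulVec, smul_mulVec, one_mulVec, ← mulVec_mulVec, hH.mulVec_eigenvectorBasis,
        mulVec_smul, hH.mulVec_eigenvectorBasis, smul_smul, sub_smul, sq]
    · intro h
      exact hH.eigenvectorBasis.orthonormal.ne_zero i (by ext j; exact congrFun h j)
  refine ⟨∑ i, if 0 < hH.eigenvalues i then 1 else -1, ?_, ?_⟩
  · rw [← card_univ, card_eq_sum_ones, Nat.cast_sum, ← sum_add_distrib]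
    exact even_sum _ fun i _ => by split_ifs <;> decide
  · have h := hasSum_sum (s := univ) (f := fun i n => hH.eigenvalues i *
      (cc n * ((K - hH.eigenvalues i ^ 2) / K) ^ n)) fun i _ =>
      (hasSum_cc (x := (K - hH.eigenvalues i ^ 2) / K) (by
        rw [abs_div, abs_of_pos hK0, div_lt_one hK0]; exact (hb i).trans_lt hK)).mul_left
          (hH.eigenvalues i)
    have e1 : ∀ n, cc n * ((H * B ^ n).trace / K ^ n) = ∑ i, hH.eigenvalues i *
        (cc n * ((K - hH.eigenvalues i ^ 2) / K) ^ n) := fun n => by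
      rw [hB', trace_form hH, sum_div, mul_sum]
      exact sum_congr rfl fun i _ => by rw [div_pow]; ring
    have e2 : √K * ((∑ i, if 0 < hH.eigenvalues i then 1 else -1 : ℤ) : ℝ) =
        ∑ i, hH.eigenvalues i * (1 / √(1 - (K - hH.eigenvalues i ^ 2) / K)) := by
      push_cast
      rw [mul_sum]
      refine sum_congr rfl fun i _ => ?_
      have h0 : hH.eigenvalues i ≠ 0 := fun h => by
        have := hb i
        rw [h, abs_le] at this
        linarith [this.2]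
      have e : 1 - (K - hH.eigenvalues i ^ 2) / K = hH.eigenvalues i ^ 2 / K := by
        field_simp; ring
      have hs : √K ≠ 0 := (Real.sqrt_pos.2 hK0).ne'
      rw [e, Real.sqrt_div (sq_nonneg _), Real.sqrt_sq_eq_abs]
      split_ifs with hp
      · rw [abs_of_pos hp]; field_simp
      · rw [abs_of_neg (lt_of_le_of_ne (not_lt.1 hp) h0)]; field_simp
    rw [e2, funext e1]
    exact h

/-- Truncation of a series with geometric bounds on the terms. -/
theorem trunc {f : ℕ → ℝ} {s a b q : ℝ} (J : ℕ) (h : HasSum (fun n => cc n * f n) s)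
    (hq0 : 0 ≤ q) (hq : q < 1) (ha : 0 ≤ a) (hb : 0 ≤ b)
    (h1 : ∀ n, -(a * q ^ n) ≤ f n) (h2 : ∀ n, f n ≤ b * q ^ n) :
    ∑ n ∈ range J, cc n * f n - cc J * a * q ^ J / (1 - q) ≤ s ∧
      s ≤ ∑ n ∈ range J, cc n * f n + cc J * b * q ^ J / (1 - q) := by
  have h3 := (hasSum_nat_add_iff' J).2 h
  have g := hasSum_geometric_of_lt_one hq0 hq
  have l := hasSum_le (fun n => show -(cc J * a * q ^ J) * q ^ n ≤ cc (n + J) * f (n + J) from by
    have c1 := cc_anti (Nat.le_add_left J n)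
    have c2 := mul_le_mul_of_nonneg_left (h1 (n + J)) (cc_nonneg (n + J))
    have c3 : 0 ≤ a * q ^ (n + J) := by positivity
    have c4 := mul_le_mul_of_nonneg_right c1 c3
    rw [pow_add] at c2 c4
    linarith) (g.mul_left _) h3
  have u := hasSum_le (fun n => show cc (n + J) * f (n + J) ≤ (cc J * b * q ^ J) * q ^ n from by
    have c1 := cc_anti (Nat.le_add_left J n)
    have c2 := mul_le_mul_of_nonneg_left (h2 (n + J)) (cc_nonneg (n + J))
    have c3 : 0 ≤ b * q ^ (n + J) := by positivity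
    have c4 := mul_le_mul_of_nonneg_right c1 c3
    rw [pow_add] at c2 c4
    linarith) h3 (g.mul_left _)
  rw [div_eq_mul_inv, div_eq_mul_inv]
  constructor <;> linarith

end Pool.Agent.MP_45e593_co.T3

end

section

/- Regular graphs without a four-cycle on `k ^ 2 - k + 4` vertices: matrix identities. -/

namespace Pool.Agent.MP_45e593_co.T3

open Matrix Finset SimpleGraph

/-- No two distinct vertices have two common neighbours. -/
def C4F {V : Type*} (G : SimpleGraph V) : Prop :=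
  ∀ x y z w, x ≠ y → z ≠ w → G.Adj x z → G.Adj y z → G.Adj x w → G.Adj y w → False

variable {V : Type*} [Fintype V] [DecidableEq V]

/-- `G` is regular without four-cycle, `H` joins the pairs without common neighbour. -/
structure Cfg (G H : SimpleGraph V) [DecidableRel G.Adj] (k : ℕ) : Prop where
  c4 : C4F G
  reg : ∀ x, G.degree x = k
  hdef : ∀ x y, H.Adj x y ↔ x ≠ y ∧ ∀ z, G.Adj x z → ¬ G.Adj y z
  card : (Fintype.card V : ℝ) = k ^ 2 - k + 4

variable {G H : SimpleGraph V} [DecidableRel G.Adj] [DecidableRel H.Adj] {k : ℕ}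

omit [DecidableEq V] in
theorem row_sum (G : SimpleGraph V) [DecidableRel G.Adj] (x : V) :
    ∑ y, G.adjMatrix ℝ x y = G.degree x := by
  simp [adjMatrix_apply, ← card_neighborFinset_eq_degree, neighborFinset_eq_filter]

omit [Fintype V] [DecidableEq V] in
theorem adj_nn (G : SimpleGraph V) [DecidableRel G.Adj] (x y : V) : 0 ≤ G.adjMatrix ℝ x y := by
  rw [adjMatrix_apply]; split_ifs <;> norm_num

omit [Fintype V] [DecidableEq V] in
theorem adj_le (G : SimpleGraph V) [DecidableRel G.Adj] (x y : V) : G.adjMatrix ℝ x y ≤ 1 := by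
  rw [adjMatrix_apply]; split_ifs <;> norm_num

omit [Fintype V] [DecidableEq V] in
theorem adj_sy (G : SimpleGraph V) [DecidableRel G.Adj] (x y : V) :
    G.adjMatrix ℝ x y = G.adjMatrix ℝ y x := by simp [adjMatrix_apply, adj_comm]

omit [DecidableEq V] in
theorem mul_card (G H : SimpleGraph V) [DecidableRel G.Adj] [DecidableRel H.Adj] (x y : V) :
    (G.adjMatrix ℝ * H.adjMatrix ℝ) x y = #{z | G.Adj x z ∧ H.Adj z y} := by
  simp [Matrix.mul_apply, adjMatrix_apply, ← ite_and, and_comm]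

/-- The all-ones matrix. -/
def JJ (V : Type*) : Matrix V V ℝ := Matrix.of fun _ _ => 1

theorem Cfg.sq (h : Cfg G H k) : G.adjMatrix ℝ * G.adjMatrix ℝ =
    ((k : ℝ) - 1) • (1 : Matrix V V ℝ) + JJ V - H.adjMatrix ℝ := by
  ext x y
  by_cases hxy : x = y
  · subst hxy
    rw [G.adjMatrix_mul_self_apply_self, h.reg]
    simp [JJ]
  · rw [mul_card]
    by_cases hH : H.Adj x y
    · rw [filter_eq_empty_iff.2 fun z _ hz => ((h.hdef x y).1 hH).2 z hz.1 hz.2.symm]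
      simp [JJ, hxy, hH]
    · have h1 : ∃ z, G.Adj x z ∧ G.Adj y z := by
        by_contra hn
        exact hH ((h.hdef x y).2 ⟨hxy, fun z a b => hn ⟨z, a, b⟩⟩)
      obtain ⟨z, a, b⟩ := h1
      have : ({w | G.Adj x w ∧ G.Adj w y} : Finset V) = {z} := by
        ext w
        simp only [mem_filter, mem_univ, true_and, mem_singleton]
        exact ⟨fun c => by_contra fun hn => h.c4 x y w z hxy hn c.1 c.2.symm a b,
          fun c => c ▸ ⟨a, b.symm⟩⟩
      rw [this]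
      simp [JJ, hxy, hH]

omit [DecidableEq V] in
theorem mul_JJ (M : Matrix V V ℝ) (c : ℝ) (h : ∀ x, ∑ y, M x y = c) : M * JJ V = c • JJ V := by
  ext x y; simp [JJ, Matrix.mul_apply, h]

omit [DecidableEq V] in
theorem JJ_mul (M : Matrix V V ℝ) (c : ℝ) (h : ∀ y, ∑ x, M x y = c) : JJ V * M = c • JJ V := by
  ext x y; simp [JJ, Matrix.mul_apply, h]

omit [DecidableEq V] [DecidableRel H.Adj] in
theorem Cfg.rowA (h : Cfg G H k) (x : V) : ∑ y, G.adjMatrix ℝ x y = k := by rw [row_sum, h.reg]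

omit [DecidableEq V] [DecidableRel H.Adj] in
theorem Cfg.colA (h : Cfg G H k) (y : V) : ∑ x, G.adjMatrix ℝ x y = k := by
  simp only [adj_sy G _ y, h.rowA]

theorem Cfg.rowB (h : Cfg G H k) (x : V) : ∑ y, H.adjMatrix ℝ x y = 3 := by
  have h1 : ∑ y, (G.adjMatrix ℝ * G.adjMatrix ℝ) x y = k ^ 2 := by
    simp only [Matrix.mul_apply]
    rw [sum_comm]
    simp only [← mul_sum, h.rowA, ← sum_mul]
    ring
  rw [h.sq] at h1
  simp only [Matrix.sub_apply, Matrix.add_apply, Matrix.smul_apply, one_apply, smul_eq_mul, mul_ite,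
    mul_one, mul_zero, sum_sub_distrib, sum_add_distrib, sum_ite_eq, mem_univ, if_true, JJ,
    of_apply, sum_const, card_univ, nsmul_eq_mul, h.card] at h1
  linarith

theorem Cfg.colB (h : Cfg G H k) (y : V) : ∑ x, H.adjMatrix ℝ x y = 3 := by
  simp only [adj_sy H _ y, h.rowB]

theorem Cfg.degB (h : Cfg G H k) (x : V) : H.degree x = 3 := by
  have := h.rowB x
  rw [row_sum] at this
  exact_mod_cast this

theorem Cfg.comm (h : Cfg G H k) :
    G.adjMatrix ℝ * H.adjMatrix ℝ = H.adjMatrix ℝ * G.adjMatrix ℝ := by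
  have e : H.adjMatrix ℝ = ((k : ℝ) - 1) • (1 : Matrix V V ℝ) + JJ V -
      G.adjMatrix ℝ * G.adjMatrix ℝ := by rw [h.sq]; simp
  rw [e, mul_sub, mul_add, sub_mul, add_mul, mul_JJ _ _ h.rowA, JJ_mul _ _ h.colA, mul_assoc]
  simp

omit [DecidableEq V] [DecidableRel H.Adj] in
theorem Cfg.nc (h : Cfg G H k) {x y z : V} (a : H.Adj x y) (b : G.Adj x z) (c : G.Adj y z) :
    False := ((h.hdef x y).1 a).2 z b c

theorem Cfg.tr (h : Cfg G H k) {u w x : V} (a : G.Adj u w) (b : H.Adj u x) :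
    ∃ y, H.Adj w y ∧ G.Adj x y := by
  have e := congrFun (congrFun h.comm x) w
  rw [mul_card, mul_card] at e
  have h1 : 0 < #{z | H.Adj x z ∧ G.Adj z w} := card_pos.2 ⟨u, by simp [a, b.symm]⟩
  have h2 : #{z | G.Adj x z ∧ H.Adj z w} = #{z | H.Adj x z ∧ G.Adj z w} := by exact_mod_cast e
  obtain ⟨y, hy⟩ := card_pos.1 (h2 ▸ h1)
  simp only [mem_filter, mem_univ, true_and] at hy
  exact ⟨y, hy.2.symm, hy.1⟩

omit [DecidableEq V] in
theorem tr_bound (G : SimpleGraph V) [DecidableRel G.Adj] {M : Matrix V V ℝ} {c : ℝ}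
    (h0 : ∀ x y, 0 ≤ M x y) (hr : ∀ x, ∑ y, M x y = c) :
    0 ≤ (G.adjMatrix ℝ * M).trace ∧ (G.adjMatrix ℝ * M).trace ≤ Fintype.card V * c := by
  simp only [Matrix.trace, diag_apply, Matrix.mul_apply]
  refine ⟨sum_nonneg fun x _ => sum_nonneg fun y _ => mul_nonneg (adj_nn G x y) (h0 y x), ?_⟩
  calc ∑ x, ∑ y, G.adjMatrix ℝ x y * M y x ≤ ∑ x, ∑ y, M y x :=
        sum_le_sum fun x _ => sum_le_sum fun y _ => mul_le_of_le_one_left (h0 y x) (adj_le G x y)
    _ = _ := by rw [sum_comm]; simp [hr]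

theorem pow_facts {M : Matrix V V ℝ} {c : ℝ} (h0 : ∀ x y, 0 ≤ M x y) (hr : ∀ x, ∑ y, M x y = c)
    (n : ℕ) : (∀ x y, 0 ≤ (M ^ n) x y) ∧ ∀ x, ∑ y, (M ^ n) x y = c ^ n := by
  induction n with
  | zero => exact ⟨fun x y => by rw [pow_zero, one_apply]; split_ifs <;> norm_num,
      fun x => by simp [one_apply]⟩
  | succ n ih =>
    refine ⟨fun x y => ?_, fun x => ?_⟩
    · rw [pow_succ, Matrix.mul_apply]
      exact sum_nonneg fun z _ => mul_nonneg (ih.1 x z) (h0 z y)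
    · simp only [pow_succ, Matrix.mul_apply]
      rw [sum_comm]
      simp only [← mul_sum, hr, ← sum_mul, ih.2]

/-- The traces of `A B ^ n`. -/
noncomputable def TT (G H : SimpleGraph V) [DecidableRel G.Adj] [DecidableRel H.Adj] (n : ℕ) : ℝ :=
  (G.adjMatrix ℝ * H.adjMatrix ℝ ^ n).trace

theorem Cfg.TT_bound (h : Cfg G H k) (n : ℕ) :
    0 ≤ TT G H n ∧ TT G H n ≤ Fintype.card V * 3 ^ n :=
  tr_bound G (pow_facts (adj_nn H) h.rowB n).1 (pow_facts (adj_nn H) h.rowB n).2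

theorem TT_zero : TT G H 0 = 0 := by simp [TT]

theorem Cfg.series (h : Cfg G H k) (hk : 5 ≤ k) : ∃ j : ℤ, Odd j ∧
    HasSum (fun n => cc n * ((k * 3 ^ n - TT G H n) / ((k : ℝ) - 1) ^ n)) (√((k : ℝ) - 1) * j) := by
  have hk' : (5 : ℝ) ≤ k := by exact_mod_cast hk
  obtain ⟨w, hw⟩ : ∃ w, w = √((k : ℝ) - 4) := ⟨_, rfl⟩
  have hw2 : w ^ 2 = k - 4 := by rw [hw, Real.sq_sqrt (by linarith)]
  have hw0 : 0 < w := by rw [hw]; exact Real.sqrt_pos.2 (by linarith)
  have hN : (0 : ℝ) < Fintype.card V := by rw [h.card]; nlinarith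
  obtain ⟨c, hc⟩ : ∃ c : ℝ, c * Fintype.card V = k - w := ⟨(k - w) / Fintype.card V, by field_simp⟩
  have hJ : JJ V * JJ V = (Fintype.card V : ℝ) • JJ V := mul_JJ _ _ fun x => by simp [JJ]
  obtain ⟨S, hS, hs⟩ := sig_sum (H := G.adjMatrix ℝ - c • JJ V) (B := H.adjMatrix ℝ)
    (by ext i j; simp [JJ, adj_comm]) (K := (k : ℝ) - 1) (t := 3) (by norm_num) (by linarith)
    (adj_nn H) h.rowB (by
      have e : c * k + c * k - c * c * Fintype.card V = 1 := by
        refine mul_left_cancel₀ hN.ne' ?_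
        have := h.card
        linear_combination (2 * k - c * Fintype.card V - (k - w)) * hc - hw2 - this
      rw [sub_mul, mul_sub, mul_sub, h.sq, smul_mul_assoc, mul_smul_comm, smul_mul_assoc,
        mul_smul_comm, mul_JJ _ _ h.rowA, JJ_mul _ _ h.colA, hJ]
      simp only [smul_smul]
      ext x y
      simp only [Matrix.sub_apply, Matrix.add_apply, Matrix.smul_apply, JJ, of_apply, smul_eq_mul]
      linear_combination -e)
  have hNe : Even (Fintype.card V : ℤ) := by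
    have : (Fintype.card V : ℤ) = k * (k - 1) + 4 := by
      have := h.card
      exact_mod_cast (by linarith : (Fintype.card V : ℝ) = k * (k - 1) + 4)
    rw [this]
    exact (Int.even_mul_pred_self _).add (by decide)
  refine ⟨1 - S, odd_one.sub_even ((Int.even_add.1 hS).2 hNe), ?_⟩
  have g := (hasSum_cc (x := 3 / ((k : ℝ) - 1)) (by
    rw [abs_of_pos (by apply div_pos <;> linarith), div_lt_one (by linarith)]; linarith)).mul_left w
  have e1 : w * (1 / √(1 - 3 / ((k : ℝ) - 1))) = √((k : ℝ) - 1) := by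
    have k1 : (k : ℝ) - 1 ≠ 0 := by linarith
    have : 1 - 3 / ((k : ℝ) - 1) = (k - 4) / (k - 1) := by field_simp; ring
    rw [this, Real.sqrt_div (by linarith), ← hw]
    field_simp
  rw [e1] at g
  have e2 : ∀ n, cc n * ((k * 3 ^ n - TT G H n) / ((k : ℝ) - 1) ^ n) =
      w * (cc n * (3 / ((k : ℝ) - 1)) ^ n) - cc n * (((G.adjMatrix ℝ - c • JJ V) *
        H.adjMatrix ℝ ^ n).trace / ((k : ℝ) - 1) ^ n) := fun n => by
    have c1 : ∀ y, ∑ x, (H.adjMatrix ℝ ^ n) x y = 3 ^ n := fun y => by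
      rw [← (pow_facts (adj_nn H) h.rowB n).2 y]
      refine sum_congr rfl fun x _ => ?_
      rw [← transpose_apply (H.adjMatrix ℝ ^ n), transpose_pow, transpose_adjMatrix]
    have c2 : (JJ V).trace = Fintype.card V := by simp [JJ, Matrix.trace]
    rw [sub_mul, smul_mul_assoc, JJ_mul _ _ c1, trace_sub, trace_smul, trace_smul, c2, TT, div_pow]
    simp only [smul_eq_mul]
    linear_combination (-(cc n * 3 ^ n / ((k : ℝ) - 1) ^ n)) * hc
  rw [funext e2]
  push_cast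
  rw [mul_sub, mul_one]
  exact g.sub hs

theorem Cfg.trunc (h : Cfg G H k) (hk : 5 ≤ k) : ∃ j : ℤ, Odd j ∧ ∀ J : ℕ,
    ∑ n ∈ range J, cc n * ((k * 3 ^ n - TT G H n) / ((k : ℝ) - 1) ^ n) -
      cc J * Fintype.card V * (3 / ((k : ℝ) - 1)) ^ J / (1 - 3 / ((k : ℝ) - 1)) ≤
        √((k : ℝ) - 1) * j ∧ √((k : ℝ) - 1) * j ≤
      ∑ n ∈ range J, cc n * ((k * 3 ^ n - TT G H n) / ((k : ℝ) - 1) ^ n) +
        cc J * k * (3 / ((k : ℝ) - 1)) ^ J / (1 - 3 / ((k : ℝ) - 1)) := by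
  have hk' : (5 : ℝ) ≤ k := by exact_mod_cast hk
  have k1 : 0 < (k : ℝ) - 1 := by linarith
  obtain ⟨j, hj, hs⟩ := h.series hk
  refine ⟨j, hj, fun J => T3.trunc J hs (by positivity) (by rw [div_lt_one k1]; linarith)
    (by positivity) (by positivity) (fun n => ?_) fun n => ?_⟩
  · rw [div_pow, ← mul_div_assoc, ← neg_div]
    have := (h.TT_bound n).2
    have : (0 : ℝ) ≤ k * 3 ^ n := by positivity
    gcongr; linarith
  · rw [div_pow, ← mul_div_assoc]
    have := (h.TT_bound n).1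
    gcongr; linarith

end Pool.Agent.MP_45e593_co.T3

end

section

/- Local structure and the first traces. -/

namespace Pool.Agent.MP_45e593_co.T3

open Matrix Finset SimpleGraph

variable {V : Type*} [Fintype V] [DecidableEq V]
variable {G H : SimpleGraph V} [DecidableRel G.Adj] [DecidableRel H.Adj] {k : ℕ}

theorem Cfg.third (h : Cfg G H k) {u a b : V} (ha : H.Adj u a) (hb : H.Adj u b) (hab : a ≠ b) :
    ∃ c, H.Adj u c ∧ c ≠ a ∧ c ≠ b ∧ ∀ z, H.Adj u z → z = a ∨ z = b ∨ z = c := by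
  have h1 : #(((H.neighborFinset u).erase a).erase b) = 1 := by
    rw [card_erase_of_mem (by simp [hb, hab.symm]), card_erase_of_mem (by simp [ha]),
      card_neighborFinset_eq_degree, h.degB]
  obtain ⟨c, hc⟩ := card_eq_one.1 h1
  have h2 : ∀ z, z ≠ b ∧ z ≠ a ∧ H.Adj u z ↔ z = c := fun z => by
    rw [← mem_singleton, ← hc]; simp
  obtain ⟨c1, c2, c3⟩ := (h2 c).2 rfl
  refine ⟨c, c3, c2, c1, fun z hz => ?_⟩
  by_contra hn
  rw [not_or, not_or] at hn
  exact hn.2.2 ((h2 z).1 ⟨hn.2.1, hn.1, hz⟩)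

theorem Cfg.others (h : Cfg G H k) {u a : V} (ha : H.Adj u a) :
    ∃ b c, H.Adj u b ∧ H.Adj u c ∧ b ≠ a ∧ c ≠ a ∧ c ≠ b ∧
      ∀ z, H.Adj u z → z = a ∨ z = b ∨ z = c := by
  have h1 : 0 < #((H.neighborFinset u).erase a) := by
    rw [card_erase_of_mem (by simp [ha]), card_neighborFinset_eq_degree, h.degB]; norm_num
  obtain ⟨b, hb⟩ := card_pos.1 h1
  rw [mem_erase, mem_neighborFinset] at hb
  obtain ⟨c, c1, c2, c3, c4⟩ := h.third ha hb.2 hb.1.symm
  exact ⟨b, c, hb.2, c1, hb.1, c2, c3, c4⟩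

theorem Cfg.enum (h : Cfg G H k) (u : V) :
    ∃ a b c, H.Adj u a ∧ H.Adj u b ∧ H.Adj u c ∧ b ≠ a ∧ c ≠ a ∧ c ≠ b ∧
      ∀ z, H.Adj u z → z = a ∨ z = b ∨ z = c := by
  obtain ⟨a, ha⟩ := (H.degree_pos_iff_exists_adj u).1 (by rw [h.degB]; norm_num)
  obtain ⟨b, c, hh⟩ := h.others ha
  exact ⟨a, b, c, ha, hh⟩

theorem sum3 {u a b c : V} (ha : H.Adj u a) (hb : H.Adj u b) (hc : H.Adj u c) (h1 : b ≠ a)
    (h2 : c ≠ a) (h3 : c ≠ b) (h4 : ∀ z, H.Adj u z → z = a ∨ z = b ∨ z = c) (f : V → ℝ) :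
    ∑ x, H.adjMatrix ℝ u x * f x = f a + f b + f c := by
  have e : H.neighborFinset u = {a, b, c} := by
    ext z
    simp only [mem_neighborFinset, mem_insert, mem_singleton]
    exact ⟨h4 z, by rintro (rfl | rfl | rfl) <;> assumption⟩
  have := H.adjMatrix_dotProduct (α := ℝ) u f
  rw [dotProduct] at this
  rw [this, e, sum_insert (by simp [h1.symm, h2.symm]), sum_pair h3.symm, add_assoc]

/-- The number of neighbours that are also joined in the second graph. -/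
def aa (G H : SimpleGraph V) [DecidableRel G.Adj] [DecidableRel H.Adj] (u : V) : ℕ :=
  #{z | G.Adj u z ∧ H.Adj z u}

omit [DecidableEq V] in
theorem aa_eq (u : V) : (aa G H u : ℝ) = ∑ x, H.adjMatrix ℝ u x * G.adjMatrix ℝ u x := by
  rw [aa, ← mul_card, Matrix.mul_apply]
  exact sum_congr rfl fun x _ => by rw [mul_comm, adj_sy H x u]

theorem TT_one : TT G H 1 = ∑ u, (aa G H u : ℝ) := by
  simp only [TT, pow_one, Matrix.trace, diag_apply, mul_card, aa]

theorem Cfg.aa_add (h : Cfg G H k) {u w : V} (a : G.Adj u w) (b : ¬ H.Adj u w) :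
    aa G H u + aa G H w ≤ 3 := by
  have h1 : aa G H w ≤ #{x ∈ H.neighborFinset u | ¬ G.Adj u x} := by
    refine card_le_card_of_forall_subsingleton (fun y x => G.Adj y x) (fun y hy => ?_)
      fun x hx y hy y' hy' => ?_
    · simp only [mem_filter, mem_univ, true_and] at hy
      obtain ⟨x, h1, h2⟩ := h.tr a.symm hy.2.symm
      refine ⟨x, ?_, h2⟩
      simp only [mem_filter, mem_neighborFinset]
      exact ⟨h1, fun c => h.c4 u y x w (fun e => b (e ▸ hy.2)) (fun e => b (e ▸ h1)) c h2 a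
        hy.1.symm⟩
    · simp only [mem_filter, mem_neighborFinset, mem_univ, true_and, Set.mem_ofPred_eq] at hx hy hy'
      by_contra hn
      exact h.c4 y y' x w hn (fun e => b (e ▸ hx.1)) hy.2 hy'.2 hy.1.1.symm hy'.1.1.symm
  have h2 : aa G H u = #{x ∈ H.neighborFinset u | G.Adj u x} := by
    rw [aa]; congr 1; ext z; simp [and_comm, H.adj_comm]
  have h3 := card_filter_add_card_filter_not (s := H.neighborFinset u) (fun x => G.Adj u x)
  rw [card_neighborFinset_eq_degree, h.degB] at h3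
  omega

theorem Cfg.aa_le (h : Cfg G H k) (u : V) : aa G H u ≤ 3 := by
  rw [← h.degB u, ← card_neighborFinset_eq_degree]
  exact card_le_card fun z hz => by simp at hz; simp [hz.2.symm]

theorem Cfg.aa_par (h : Cfg G H k) (u : V) : ∃ m, k = aa G H u + 2 * m := by
  have h1 : ∀ z, G.Adj u z → ¬ H.Adj z u → ∃ y, G.Adj u y ∧ G.Adj z y := fun z a b => by
    by_contra hn
    exact b ((h.hdef z u).2 ⟨a.ne.symm, fun y c d => hn ⟨y, d, c⟩⟩)
  classical
  choose! f hf using h1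
  have h2 : ∀ z ∈ ({z | G.Adj u z ∧ ¬ H.Adj z u} : Finset V),
      f z ∈ ({z | G.Adj u z ∧ ¬ H.Adj z u} : Finset V) := fun z hz => by
    simp only [mem_filter, mem_univ, true_and] at hz ⊢
    exact ⟨(hf z hz.1 hz.2).1, fun c => h.nc c (hf z hz.1 hz.2).2.symm hz.1⟩
  have h3 : ∑ _z ∈ ({z | G.Adj u z ∧ ¬ H.Adj z u} : Finset V), (1 : ZMod 2) = 0 := by
    refine sum_involution (fun z _ => f z) (fun _ _ => by decide) (fun z hz _ => ?_) h2
      fun z hz => ?_
    · simp only [mem_filter, mem_univ, true_and] at hz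
      exact (hf z hz.1 hz.2).2.ne.symm
    · have c := h2 z hz
      simp only [mem_filter, mem_univ, true_and] at hz c
      by_contra hn
      exact h.c4 u (f z) (f (f z)) z c.1.ne hn (hf _ c.1 c.2).1 (hf _ c.1 c.2).2 hz.1
        (hf z hz.1 hz.2).2.symm
  rw [sum_const, nsmul_eq_mul, mul_one, ZMod.natCast_eq_zero_iff] at h3
  obtain ⟨m, hm⟩ := h3
  refine ⟨m, ?_⟩
  have h4 := card_filter_add_card_filter_not (s := G.neighborFinset u) (fun z => H.Adj z u)
  rw [card_neighborFinset_eq_degree, h.reg, neighborFinset_eq_filter, filter_filter,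
    filter_filter] at h4
  rw [aa, ← hm, h4]

/-- The number of ordered adjacent pairs among the neighbours in the second graph. -/
noncomputable def bb (G H : SimpleGraph V) [DecidableRel G.Adj] [DecidableRel H.Adj] (u : V) : ℝ :=
  ∑ x, H.adjMatrix ℝ u x * ∑ y, H.adjMatrix ℝ u y * G.adjMatrix ℝ x y

omit [DecidableEq V] in
theorem bab (x x' : V) : (H.adjMatrix ℝ * G.adjMatrix ℝ * H.adjMatrix ℝ) x x' =
    ∑ u, H.adjMatrix ℝ x u * ∑ y, H.adjMatrix ℝ x' y * G.adjMatrix ℝ u y := by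
  rw [mul_assoc, Matrix.mul_apply]
  refine sum_congr rfl fun u _ => ?_
  rw [Matrix.mul_apply]
  exact congrArg _ (sum_congr rfl fun y _ => by rw [mul_comm, adj_sy H y x'])

theorem TT_two : TT G H 2 = ∑ u, bb G H u := by
  rw [TT, sq, ← mul_assoc, trace_mul_comm, ← mul_assoc]
  exact sum_congr rfl fun u _ => bab u u

theorem bb_eq {u a b c : V} (ha : H.Adj u a) (hb : H.Adj u b) (hc : H.Adj u c) (h1 : b ≠ a)
    (h2 : c ≠ a) (h3 : c ≠ b) (h4 : ∀ z, H.Adj u z → z = a ∨ z = b ∨ z = c) :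
    bb G H u = 2 * (G.adjMatrix ℝ a b + G.adjMatrix ℝ a c + G.adjMatrix ℝ b c) := by
  rw [bb, sum3 ha hb hc h1 h2 h3 h4]
  simp only [sum3 ha hb hc h1 h2 h3 h4, adj_sy G b a, adj_sy G c a, adj_sy G c b]
  simp only [adjMatrix_apply, G.irrefl, if_false]
  ring

omit [Fintype V] [DecidableEq V] in
theorem four_le (hc : C4F G) {a b c d : V} (h1 : a ≠ b) (h2 : c ≠ d) :
    G.adjMatrix ℝ a c + G.adjMatrix ℝ a d + G.adjMatrix ℝ b c + G.adjMatrix ℝ b d ≤ 3 := by
  have := adj_le G a c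
  have := adj_le G a d
  have := adj_le G b c
  have := adj_le G b d
  by_contra hn
  have e : ∀ x y, 0 < G.adjMatrix ℝ x y → G.Adj x y := fun x y h => by
    by_contra h'; simp [h'] at h
  exact hc a b c d h1 h2 (e _ _ (by linarith)) (e _ _ (by linarith)) (e _ _ (by linarith))
    (e _ _ (by linarith))

theorem Cfg.TT_three (h : Cfg G H k) :
    5 * TT G H 1 ≤ TT G H 3 ∧ TT G H 3 ≤ 5 * TT G H 1 + 9 * Fintype.card V := by
  have e : TT G H 3 = ∑ x, ∑ x', H.adjMatrix ℝ x x' *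
      (H.adjMatrix ℝ * G.adjMatrix ℝ * H.adjMatrix ℝ) x x' := by
    rw [TT, pow_succ, pow_two, ← mul_assoc, trace_mul_comm, ← mul_assoc, ← mul_assoc]
    simp only [Matrix.trace, diag_apply, Matrix.mul_apply (N := H.adjMatrix ℝ)
      (M := H.adjMatrix ℝ * G.adjMatrix ℝ * H.adjMatrix ℝ)]
    exact sum_congr rfl fun x _ => sum_congr rfl fun x' _ => by rw [mul_comm, adj_sy H x' x]
  have key : ∀ x x', H.Adj x x' → aa G H x + aa G H x' - G.adjMatrix ℝ x x' ≤
      (H.adjMatrix ℝ * G.adjMatrix ℝ * H.adjMatrix ℝ) x x' ∧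
      (H.adjMatrix ℝ * G.adjMatrix ℝ * H.adjMatrix ℝ) x x' ≤
        aa G H x + aa G H x' - G.adjMatrix ℝ x x' + 3 := fun x x' hx => by
    obtain ⟨a, b, a1, a2, a3, a4, a5, a6⟩ := h.others hx
    obtain ⟨c, d, c1, c2, c3, c4, c5, c6⟩ := h.others hx.symm
    rw [bab, aa_eq, aa_eq, sum3 hx a1 a2 a3 a4 a5 a6, sum3 hx a1 a2 a3 a4 a5 a6]
    simp only [sum3 hx.symm c1 c2 c3 c4 c5 c6]
    have := four_le h.c4 a5 c5
    have := adj_nn G a c
    have := adj_nn G a d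
    have := adj_nn G b c
    have := adj_nn G b d
    rw [adj_sy G a x, adj_sy G b x, adj_sy G x' x]
    constructor <;> linarith
  have s1 : ∑ x, ∑ x', H.adjMatrix ℝ x x' * (aa G H x + aa G H x' - G.adjMatrix ℝ x x') =
      5 * TT G H 1 := by
    simp only [mul_sub, mul_add, sum_sub_distrib, sum_add_distrib, ← aa_eq]
    rw [sum_comm (f := fun x x' => H.adjMatrix ℝ x x' * aa G H x')]
    simp only [← sum_mul, h.rowB, h.colB, ← mul_sum, TT_one]
    ring
  have s2 : ∑ x, ∑ x', H.adjMatrix ℝ x x' * (aa G H x + aa G H x' - G.adjMatrix ℝ x x' + 3) =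
      5 * TT G H 1 + 9 * Fintype.card V := by
    rw [← s1]
    have e3 : ∀ a b : ℝ, a * (b + 3) = a * b + a * 3 := fun a b => mul_add a b 3
    simp only [e3, sum_add_distrib, ← sum_mul, h.rowB, sum_const, card_univ, nsmul_eq_mul]
    ring
  rw [← s2, ← s1, e]
  constructor <;> refine sum_le_sum fun x _ => sum_le_sum fun x' _ => ?_ <;>
    by_cases hx : H.Adj x x'
  · exact mul_le_mul_of_nonneg_left (key x x' hx).1 (adj_nn H x x')
  · simp [hx]
  · exact mul_le_mul_of_nonneg_left (key x x' hx).2 (adj_nn H x x')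
  · simp [hx]

theorem Cfg.P2 (h : Cfg G H k) :
    (∀ x y, 0 ≤ (H.adjMatrix ℝ ^ 2 - (3 : ℝ) • (1 : Matrix V V ℝ)) x y) ∧
      ∀ x, ∑ y, (H.adjMatrix ℝ ^ 2 - (3 : ℝ) • (1 : Matrix V V ℝ)) x y = 6 := by
  refine ⟨fun x y => ?_, fun x => ?_⟩
  · by_cases hxy : x = y
    · subst hxy
      rw [Matrix.sub_apply, pow_two, H.adjMatrix_mul_self_apply_self, h.degB]
      simp
    · simpa [hxy] using (pow_facts (adj_nn H) h.rowB 2).1 x y
  · simp only [Matrix.sub_apply, sum_sub_distrib, (pow_facts (adj_nn H) h.rowB 2).2]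
    simp [one_apply]
    norm_num

theorem Cfg.TT_four (h : Cfg G H k) : TT G H 4 ≤ 6 * TT G H 2 + 36 * Fintype.card V := by
  have := (tr_bound G (pow_facts h.P2.1 h.P2.2 2).1 (pow_facts h.P2.1 h.P2.2 2).2).2
  have e : (H.adjMatrix ℝ ^ 2 - (3 : ℝ) • (1 : Matrix V V ℝ)) ^ 2 =
      H.adjMatrix ℝ ^ 4 - (6 : ℝ) • H.adjMatrix ℝ ^ 2 + (9 : ℝ) • (1 : Matrix V V ℝ) := by
    rw [pow_two (_ - _), sub_mul, mul_sub, mul_sub, ← pow_add]
    simp only [smul_mul_assoc, mul_smul_comm, mul_one, one_mul, smul_smul]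
    module
  rw [e, mul_add, mul_sub, mul_smul_comm, mul_smul_comm, mul_one, trace_add, trace_sub, trace_smul,
    trace_smul, trace_adjMatrix] at this
  simp only [smul_eq_mul, TT] at this ⊢
  linarith

end Pool.Agent.MP_45e593_co.T3

end

section

/- Second moment bounds for vertex sets. -/

namespace Pool.Agent.MP_45e593_co.T3

open Matrix Finset SimpleGraph

variable {V : Type*} [Fintype V] [DecidableEq V]
variable {G H : SimpleGraph V} [DecidableRel G.Adj] [DecidableRel H.Adj] {k : ℕ}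

omit [DecidableRel H.Adj] in
theorem Cfg.sum_h (h : Cfg G H k) (S : Finset V) :
    ∑ v ∈ S, ∑ w ∈ S, G.adjMatrix ℝ v w + ∑ v ∈ Sᶜ, ∑ w ∈ S, G.adjMatrix ℝ v w = k * #S := by
  rw [sum_add_sum_compl, sum_comm]
  simp only [h.colA, sum_const, nsmul_eq_mul, mul_comm]

theorem Cfg.hoff0 (h : Cfg G H k) (S : Finset V) {N P e β : ℝ} (hN : N = Fintype.card V)
    (hP : P = #S) (he : e = ∑ v ∈ S, ∑ w ∈ S, G.adjMatrix ℝ v w)
    (hβ : β = ∑ v ∈ S, ∑ w ∈ S, H.adjMatrix ℝ v w) :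
    (e * N - k * P ^ 2) ^ 2 ≤ P * (N - P) * (N * (k - 1) * P - N * β - (k - 4) * P ^ 2) := by
  have h1 := h.sum_h S
  have h2 : ∑ v ∈ S, (∑ w ∈ S, G.adjMatrix ℝ v w) ^ 2 + ∑ v ∈ Sᶜ, (∑ w ∈ S, G.adjMatrix ℝ v w) ^ 2 =
      (k - 1) * P + P ^ 2 - β := by
    rw [sum_add_sum_compl]
    have e1 : ∑ v, (∑ w ∈ S, G.adjMatrix ℝ v w) ^ 2 =
        ∑ w ∈ S, ∑ w' ∈ S, (G.adjMatrix ℝ * G.adjMatrix ℝ) w w' := by
      simp only [pow_two, sum_mul_sum, Matrix.mul_apply]
      rw [sum_comm]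
      refine sum_congr rfl fun w _ => ?_
      rw [sum_comm]
      exact sum_congr rfl fun w' _ => sum_congr rfl fun v _ => by rw [adj_sy G w v]
    rw [e1, h.sq, hβ, hP]
    simp only [Matrix.sub_apply, Matrix.add_apply, Matrix.smul_apply, one_apply, smul_eq_mul,
      mul_ite, mul_one, mul_zero, sum_sub_distrib, sum_add_distrib, sum_ite_eq, JJ, of_apply,
      sum_const, nsmul_eq_mul]
    rw [sum_congr rfl fun x hx => if_pos hx, sum_const, nsmul_eq_mul]
    ring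
  have h3 := sq_sum_le_card_mul_sum_sq (s := S) (f := fun v => ∑ w ∈ S, G.adjMatrix ℝ v w)
  have h4 := sq_sum_le_card_mul_sum_sq (s := Sᶜ) (f := fun v => ∑ w ∈ S, G.adjMatrix ℝ v w)
  have h5 : (#Sᶜ : ℝ) = N - P := by
    rw [card_compl, Nat.cast_sub (card_le_univ S), hN, hP]
  have h6 : 0 ≤ P := by rw [hP]; positivity
  have h7 : 0 ≤ N - P := by rw [← h5]; positivity
  have h8 := h.card
  rw [← hN] at h8
  rw [h5] at h4
  rw [← hP, ← he] at h1 h3
  generalize ∑ v ∈ Sᶜ, ∑ w ∈ S, G.adjMatrix ℝ v w = o at h1 h4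
  generalize ∑ v ∈ S, (∑ w ∈ S, G.adjMatrix ℝ v w) ^ 2 = a at h2 h3
  generalize ∑ v ∈ Sᶜ, (∑ w ∈ S, G.adjMatrix ℝ v w) ^ 2 = b at h2 h4
  have h9 := mul_le_mul_of_nonneg_left (add_le_add (mul_le_mul_of_nonneg_left h3 h7)
    (mul_le_mul_of_nonneg_left h4 h6)) (by linarith : 0 ≤ N)
  have e2 : o = k * P - e := by linarith
  have e3 : β = (k - 1) * P + P ^ 2 - a - b := by linarith
  have e4 : (k : ℝ) - 4 = k ^ 2 - N := by linarith
  rw [e3, e4]
  rw [e2] at h9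
  linarith

theorem Cfg.hoff (h : Cfg G H k) (hk : 4 ≤ k) (S : Finset V) {N c b D r : ℝ}
    (hN : N = Fintype.card V) (he : ∑ v ∈ S, ∑ w ∈ S, G.adjMatrix ℝ v w ≤ c * #S)
    (hβ : b * #S ≤ ∑ v ∈ S, ∑ w ∈ S, H.adjMatrix ℝ v w) (hD : 0 ≤ D) (hr : 0 ≤ r)
    (h1 : N * (k - 1 - b) - (k - 4) * D ≤ r ^ 2 * (N - D)) (h2 : (c + r) * N ≤ (k + r) * D) :
    (#S : ℝ) ≤ D := by
  have hk' : (4 : ℝ) ≤ k := by exact_mod_cast hk
  have h0 := h.hoff0 S hN rfl rfl rfl
  have h3 : (#S : ℝ) ≤ N := by rw [hN]; exact_mod_cast card_le_univ S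
  generalize (#S : ℝ) = P at *
  generalize ∑ v ∈ S, ∑ w ∈ S, G.adjMatrix ℝ v w = e at *
  generalize ∑ v ∈ S, ∑ w ∈ S, H.adjMatrix ℝ v w = β at *
  by_contra hn
  rw [not_le] at hn
  have hP : 0 < P := by linarith
  have a1 : r * (N - D) < k * P - c * N := by nlinarith
  have a2 : 0 ≤ r * (N - D) := mul_nonneg hr (by linarith)
  have a3 : P * (k * P - c * N) ≤ k * P ^ 2 - e * N := by nlinarith
  have a4 : P * (r * (N - D)) < k * P ^ 2 - e * N := by nlinarith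
  have a5 : (P * (r * (N - D))) ^ 2 < (k * P ^ 2 - e * N) ^ 2 :=
    pow_lt_pow_left₀ a4 (by positivity) (by norm_num)
  have a6 : N * (k - 1) * P - N * β - (k - 4) * P ^ 2 ≤ P * (r ^ 2 * (N - D)) := by
    have b1 : N * (b * P) ≤ N * β := mul_le_mul_of_nonneg_left hβ (by linarith)
    have b2 : (k - 4) * D ≤ (k - 4) * P := mul_le_mul_of_nonneg_left hn.le (by linarith)
    nlinarith
  have a7 : P * (N - P) * (N * (k - 1) * P - N * β - (k - 4) * P ^ 2) ≤
      P * (N - P) * (P * (r ^ 2 * (N - D))) :=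
    mul_le_mul_of_nonneg_left a6 (mul_nonneg hP.le (by linarith))
  have a8 : (N - P) * (P ^ 2 * r ^ 2 * (N - D)) ≤ (N - D) * (P ^ 2 * r ^ 2 * (N - D)) :=
    mul_le_mul_of_nonneg_right (by linarith) (mul_nonneg (by positivity) (by linarith))
  nlinarith

theorem Cfg.hoff2 (h : Cfg G H k) (S : Finset V) {N r : ℝ} (hN : N = Fintype.card V)
    (ho : ∑ v ∈ Sᶜ, ∑ w ∈ S, G.adjMatrix ℝ v w ≤ 2 * (N - #S))
    (hβ : ∑ v ∈ S, ∑ w ∈ S, H.adjMatrix ℝ v w = 3 * #S) (hr : 0 ≤ r) (h1 : (k : ℝ) - 4 ≤ r ^ 2)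
    (hS : (#S : ℝ) < N) : (k - r) * #S ≤ 2 * N := by
  have h0 := h.hoff0 S hN rfl rfl hβ.symm
  have h2 := h.sum_h S
  have h3 : (0 : ℝ) ≤ #S := by positivity
  generalize (#S : ℝ) = P at *
  generalize ∑ v ∈ S, ∑ w ∈ S, G.adjMatrix ℝ v w = e at *
  generalize ∑ v ∈ Sᶜ, ∑ w ∈ S, G.adjMatrix ℝ v w = o at *
  by_contra hn
  rw [not_le] at hn
  have a1 : (N - P) * (r * P) < (N - P) * (k * P - 2 * N) :=
    mul_lt_mul_of_pos_left (by linarith) (by linarith)
  have a2 : (N - P) * (k * P - 2 * N) ≤ e * N - k * P ^ 2 := by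
    have : o * N ≤ 2 * (N - P) * N := mul_le_mul_of_nonneg_right ho (by linarith)
    have e1 : e = k * P - o := by linarith
    rw [e1]; nlinarith
  have a3 : ((N - P) * (r * P)) ^ 2 < (e * N - k * P ^ 2) ^ 2 :=
    pow_lt_pow_left₀ (a1.trans_le a2) (mul_nonneg (by linarith) (by positivity)) (by norm_num)
  have a4 : (k - 4) * (P * (N - P)) ^ 2 ≤ r ^ 2 * (P * (N - P)) ^ 2 :=
    mul_le_mul_of_nonneg_right h1 (sq_nonneg _)
  nlinarith

end Pool.Agent.MP_45e593_co.T3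

end

section

/- The case of odd degree. -/

namespace Pool.Agent.MP_45e593_co.T3

open Matrix Finset SimpleGraph

variable {V : Type*} [Fintype V] [DecidableEq V]
variable {G H : SimpleGraph V} [DecidableRel G.Adj] [DecidableRel H.Adj] {k : ℕ}

theorem Cfg.aa_one (h : Cfg G H k) (hk : 5 ≤ k) (ho : Odd k) (u : V) : aa G H u = 1 := by
  obtain ⟨l, hl⟩ := ho
  obtain ⟨m, hm⟩ := h.aa_par u
  have h1 := h.aa_le u
  obtain ⟨w, hw, hw'⟩ : ∃ w, G.Adj u w ∧ ¬ H.Adj u w := by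
    by_contra hn
    have : G.neighborFinset u ⊆ H.neighborFinset u := fun w hw => by
      rw [mem_neighborFinset] at hw ⊢
      by_contra h'
      exact hn ⟨w, hw, h'⟩
    have := card_le_card this
    rw [card_neighborFinset_eq_degree, card_neighborFinset_eq_degree, h.reg, h.degB] at this
    omega
  obtain ⟨m', hm'⟩ := h.aa_par w
  have h2 := h.aa_add hw hw'
  omega

/-- The perfect matching formed by the common edges. -/
structure Mat (G H : SimpleGraph V) (σ : V → V) : Prop where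
  g : ∀ u, G.Adj u (σ u)
  h : ∀ u, H.Adj u (σ u)
  uq : ∀ u y, G.Adj u y → H.Adj u y → y = σ u

theorem Cfg.mat (h : Cfg G H k) (hk : 5 ≤ k) (ho : Odd k) : ∃ σ, Mat G H σ := by
  have h1 : ∀ u, ∃ s, ∀ y, G.Adj u y ∧ H.Adj y u ↔ y = s := fun u => by
    obtain ⟨s, hs⟩ := card_eq_one.1 (h.aa_one hk ho u)
    exact ⟨s, fun y => by rw [← mem_singleton, ← hs]; simp⟩
  choose σ hσ using h1
  exact ⟨σ, fun u => ((hσ u _).2 rfl).1, fun u => ((hσ u _).2 rfl).2.symm,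
    fun u y a b => (hσ u y).1 ⟨a, b.symm⟩⟩

variable {σ : V → V}

omit [Fintype V] [DecidableEq V] [DecidableRel G.Adj] [DecidableRel H.Adj] in
theorem Mat.inv (m : Mat G H σ) (u : V) : σ (σ u) = u :=
  (m.uq (σ u) u (m.g u).symm (m.h u).symm).symm

theorem Cfg.caseA1 (h : Cfg G H k) (m : Mat G H σ) {u p q : V} (hp : H.Adj u p) (hq : H.Adj u q)
    (hg : G.Adj p q) (hn : ¬ H.Adj p q) :
    ∃ p', H.Adj p p' ∧ p' ≠ u ∧ p' ≠ σ p ∧ G.Adj u p' ∧ G.Adj p' (σ q) := by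
  have h1 : u ≠ σ p := fun e => h.nc hq (e ▸ (m.g p).symm) hg.symm
  obtain ⟨c, c1, c2, c3, c4⟩ := h.third hp.symm (m.h p) h1
  refine ⟨c, c1, c2, c3, ?_, ?_⟩
  · obtain ⟨y, y1, y2⟩ := h.tr hg.symm hq.symm
    rcases c4 y y1 with rfl | rfl | rfl
    · exact (G.irrefl y2).elim
    · exact (h.nc hp y2 (m.g p)).elim
    · exact y2
  · obtain ⟨y, y1, y2⟩ := h.tr hg.symm (m.h q)
    rcases c4 y y1 with rfl | rfl | rfl
    · exact (h.nc hq y2.symm (m.g q)).elim
    · exact (h.c4 p (σ q) q (σ p) (fun e => hn (e ▸ (m.h q).symm)) (fun e => hn (e ▸ m.h p))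
        hg (m.g q).symm (m.g p) y2).elim
    · exact y2.symm

theorem Cfg.caseA2 (h : Cfg G H k) (m : Mat G H σ) {u p q : V} (hp : H.Adj u p) (hq : H.Adj u q)
    (hg : G.Adj p q) (hn : ¬ H.Adj p q) : H.Adj p (σ u) ∧ G.Adj (σ u) (σ q) := by
  obtain ⟨p', a1, a2, a3, a4, a5⟩ := h.caseA1 m hp hq hg hn
  by_cases hb : H.Adj u p'
  · rw [← m.uq u p' a4 hb]; exact ⟨a1, a5⟩
  exfalso
  obtain ⟨u', b1, b2, b3, -, b5⟩ := h.caseA1 m hp.symm a1 a4 hb
  obtain ⟨c, -, -, -, c4⟩ := h.third hp hq hg.ne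
  have s1 : σ u = c := by
    rcases c4 _ (m.h u) with e | e | e
    · exact (h.nc hq (e ▸ m.g u) hg.symm).elim
    · exact (h.nc hp (e ▸ m.g u) hg).elim
    · exact e
  have s2 : u' = q := by
    rcases c4 _ b1 with e | e | e
    · exact (b2 e).elim
    · exact e
    · exact (b3 (e.trans s1.symm)).elim
  have s3 : q ≠ p' := fun e => hn (e ▸ a1)
  exact h.c4 q p' (σ q) (σ p') s3 (fun e => s3 (by rw [← m.inv q, e, m.inv])) (m.g q) a5
    (s2 ▸ b5) (m.g p')

theorem Cfg.caseA (h : Cfg G H k) (m : Mat G H σ) {u p q : V} (hp : H.Adj u p) (hq : H.Adj u q)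
    (hg : G.Adj p q) : H.Adj p q := by
  by_contra hn
  exact h.nc (h.caseA2 m hq hp hg.symm fun e => hn e.symm).1 (m.g q) (h.caseA2 m hp hq hg hn).2

/-- The vertex lies in a complete component of `H`. -/
def KK (H : SimpleGraph V) (u : V) : Prop := ∀ x y, H.Adj u x → H.Adj u y → x ≠ y → H.Adj x y

theorem Cfg.caseB1 (h : Cfg G H k) (m : Mat G H σ) {u p q : V} (hp : H.Adj u p) (hq : H.Adj u q)
    (hg : G.Adj p q) : H.Adj p (σ u) := by
  obtain ⟨y, y1, y2⟩ := h.tr hg.symm hq.symm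
  rw [← m.uq u y y2 (h.caseA m hp.symm y1 y2)]
  exact y1

theorem Cfg.caseB (h : Cfg G H k) (m : Mat G H σ) {u p q : V} (hp : H.Adj u p) (hq : H.Adj u q)
    (hg : G.Adj p q) : KK H u := by
  have a1 := h.caseA m hp hq hg
  have a2 := h.caseB1 m hp hq hg
  have a3 := h.caseB1 m hq hp hg.symm
  obtain ⟨c, -, -, -, c4⟩ := h.third hp hq hg.ne
  have s1 : σ u = c := by
    rcases c4 _ (m.h u) with e | e | e
    · exact (a2.ne e.symm).elim
    · exact (a3.ne e.symm).elim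
    · exact e
  subst s1
  intro x y hx hy hxy
  rcases c4 x hx with rfl | rfl | rfl <;> rcases c4 y hy with rfl | rfl | rfl <;>
    first | exact (hxy rfl).elim | assumption | (apply SimpleGraph.Adj.symm; assumption)

open Classical in
theorem Cfg.bb_odd (h : Cfg G H k) (m : Mat G H σ) (u : V) :
    bb G H u = if KK H u then 2 else 0 := by
  obtain ⟨p, q, hp, hq, a1, a2, a3, a4⟩ := h.others (m.h u)
  have b1 : ¬ G.Adj (σ u) p := fun e => h.nc hp (m.g u) e.symm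
  have b2 : ¬ G.Adj (σ u) q := fun e => h.nc hq (m.g u) e.symm
  rw [bb_eq (m.h u) hp hq a1 a2 a3 a4]
  split_ifs with hu
  · have c1 := hu p _ hp (m.h u) a1
    have c2 := hu p q hp hq a3.symm
    obtain ⟨c, -, -, -, c4⟩ := h.third hp.symm c1 (m.h u).ne
    have c5 : q = c := by
      rcases c4 q c2 with e | e | e
      · exact (hq.ne e.symm).elim
      · exact (a2 e).elim
      · exact e
    have c6 : G.Adj p q := by
      rcases c4 _ (m.h p) with e | e | e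
      · exact (a1 (by rw [← e, m.inv])).elim
      · exact (b1 (e ▸ (m.g p).symm)).elim
      · rw [c5, ← e]; exact m.g p
    simp [b1, b2, c6]
  · have : ¬ G.Adj p q := fun e => hu (h.caseB m hp hq e)
    simp [b1, b2, this]

theorem Cfg.KK_adj (h : Cfg G H k) {u x : V} (hu : KK H u) (hx : H.Adj u x) : KK H x := by
  obtain ⟨p, q, hp, hq, a1, a2, a3, -⟩ := h.others hx
  have c1 := hu x p hx hp a1.symm
  have c2 := hu x q hx hq a2.symm
  have c3 := hu p q hp hq a3.symm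
  obtain ⟨c, -, -, -, c4⟩ := h.third hx.symm c1 hp.ne
  have c5 : q = c := by
    rcases c4 q c2 with e | e | e
    · exact (hq.ne e.symm).elim
    · exact (a3 e).elim
    · exact e
  subst c5
  intro y z hy hz hyz
  rcases c4 y hy with rfl | rfl | rfl <;> rcases c4 z hz with rfl | rfl | rfl <;>
    first | exact (hyz rfl).elim | assumption | (apply SimpleGraph.Adj.symm; assumption)

open Classical in
theorem Cfg.out_le (h : Cfg G H k) {v : V} (hv : ¬ KK H v) :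
    #{w | KK H w ∧ G.Adj v w} ≤ 2 := by
  simp only [KK, not_forall] at hv
  obtain ⟨a, b, ha, hb, hab, hn⟩ := hv
  obtain ⟨c, -, -, -, c4⟩ := h.third ha hb hab
  obtain ⟨a1, a2, s1, s2, s3, s4⟩ : ∃ a1 a2, H.Adj a a1 ∧ a1 ≠ v ∧ ¬ H.Adj v a1 ∧
      ∀ z, H.Adj a z → z = v ∨ z = a1 ∨ z = a2 := by
    obtain ⟨x, y, x1, x2, x3, x4, x5, x6⟩ := h.others ha.symm
    by_cases hx : H.Adj v x
    · refine ⟨y, x, x2, x4, fun hy => ?_, fun z hz => by have := x6 z hz; tauto⟩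
      rcases c4 x hx with e | e | e
      · exact x1.ne e.symm
      · exact hn (e ▸ x1)
      · rcases c4 y hy with e' | e' | e'
        · exact x2.ne e'.symm
        · exact hn (e' ▸ x2)
        · exact x5 (e'.trans e.symm)
    · exact ⟨x, y, x1, x3, hx, x6⟩
  have h2 : #((H.neighborFinset a1).erase a) = 2 := by
    rw [card_erase_of_mem (by simp [s1.symm]), card_neighborFinset_eq_degree, h.degB]
  rw [← h2]
  refine card_le_card_of_forall_subsingleton (fun w e => G.Adj w e) (fun w hw => ?_)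
    fun e he w hw w' hw' => ?_
  · simp only [mem_filter, mem_univ, true_and] at hw
    obtain ⟨x, x1, x2⟩ := h.tr hw.2 ha
    obtain ⟨r1, r2, q1, q2, q3, q4, q5, -⟩ := h.others x1
    obtain ⟨y1, t1, t2⟩ := h.tr x2.symm (hw.1 x r1 x1 q1 q3.symm)
    obtain ⟨y2, t3, t4⟩ := h.tr x2.symm (hw.1 x r2 x1 q2 q4.symm)
    obtain ⟨r, r3, r4⟩ : ∃ r, H.Adj w r ∧ G.Adj r a1 := by
      rcases s4 y1 t1 with e | e | e
      · exact (h.nc q1 hw.2.symm (e ▸ t2)).elim
      · exact ⟨r1, q1, e ▸ t2⟩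
      · rcases s4 y2 t3 with e' | e' | e'
        · exact (h.nc q2 hw.2.symm (e' ▸ t4)).elim
        · exact ⟨r2, q2, e' ▸ t4⟩
        · exact (h.nc (hw.1 r1 r2 q1 q2 q5.symm) (e ▸ t2) (e' ▸ t4)).elim
    obtain ⟨e, e1, e2⟩ := h.tr r4 r3.symm
    refine ⟨e, ?_, e2⟩
    rw [mem_erase, mem_neighborFinset]
    exact ⟨fun e3 => h.nc x1 (e3 ▸ e2) x2.symm, e1⟩
  · simp only [mem_filter, mem_univ, true_and, mem_erase, mem_neighborFinset,
      Set.mem_ofPred_eq] at he hw hw'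
    by_contra hne
    exact h.c4 w w' v e hne (fun e3 => s3 (e3 ▸ he.2.symm)) hw.1.2.symm hw'.1.2.symm hw.2 hw'.2

theorem Cfg.TT_two_odd (h : Cfg G H k) (hk : 5 ≤ k) (ho : Odd k) : ∃ P : ℝ, TT G H 2 = 2 * P ∧
    0 ≤ P ∧ P ≤ Fintype.card V ∧ (P = Fintype.card V ∨
      ∀ r : ℝ, 0 ≤ r → (k : ℝ) - 4 ≤ r ^ 2 → (k - r) * P ≤ 2 * Fintype.card V) := by
  classical
  obtain ⟨σ, m⟩ := h.mat hk ho
  have h1 : (#{u | KK H u} : ℝ) ≤ Fintype.card V := by exact_mod_cast card_le_univ _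
  refine ⟨#{u | KK H u}, ?_, by positivity, h1, ?_⟩
  · rw [TT_two, sum_congr rfl fun u _ => h.bb_odd m u, ← sum_filter, sum_const, nsmul_eq_mul,
      mul_comm]
  · refine h1.eq_or_lt.imp_right fun h2 r hr hr2 => h.hoff2 _ rfl ?_ ?_ hr hr2 h2
    · rw [← Nat.cast_sub (card_le_univ _), ← card_compl, mul_comm, ← nsmul_eq_mul, ← sum_const]
      refine sum_le_sum fun v hv => ?_
      have := h.out_le (v := v) (by simpa using hv)
      simp only [adjMatrix_apply, sum_boole, filter_filter]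
      exact_mod_cast this
    · rw [mul_comm, ← nsmul_eq_mul, ← sum_const]
      refine sum_congr rfl fun v hv => ?_
      rw [← h.rowB v]
      refine sum_subset (subset_univ _) fun w _ hw => ?_
      simp only [mem_filter, mem_univ, true_and] at hv hw
      rw [adjMatrix_apply, if_neg fun e => hw (h.KK_adj hv e)]

end Pool.Agent.MP_45e593_co.T3

end

section

/- The case of even degree. -/

namespace Pool.Agent.MP_45e593_co.T3

open Matrix Finset SimpleGraph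

variable {V : Type*} [Fintype V] [DecidableEq V]
variable {G H : SimpleGraph V} [DecidableRel G.Adj] [DecidableRel H.Adj] {k : ℕ}

theorem Cfg.aa_even (h : Cfg G H k) (he : Even k) (u : V) : aa G H u = 0 ∨ aa G H u = 2 := by
  obtain ⟨l, hl⟩ := he
  obtain ⟨m, hm⟩ := h.aa_par u
  have := h.aa_le u
  omega

theorem Cfg.TT_one_even (h : Cfg G H k) (hk : 4 ≤ k) (he : Even k) {N D r : ℝ}
    (hN : N = Fintype.card V) (hD : 0 ≤ D) (hr : 0 ≤ r)
    (h1 : N * (k - 1 - 2) - (k - 4) * D ≤ r ^ 2 * (N - D)) (h2 : (2 + r) * N ≤ (k + r) * D) :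
    TT G H 1 ≤ 2 * D := by
  have e : TT G H 1 = 2 * #{u | aa G H u = 2} := by
    rw [TT_one, card_filter, Nat.cast_sum, mul_sum]
    refine sum_congr rfl fun u _ => ?_
    rcases h.aa_even he u with e | e <;> simp [e]
  have := h.hoff hk {u | aa G H u = 2} (c := 2) (b := 2) hN ?_ ?_ hD hr h1 h2
  · linarith
  · rw [mul_comm, ← nsmul_eq_mul, ← sum_const]
    refine sum_le_sum fun u hu => ?_
    simp only [mem_filter, mem_univ, true_and] at hu
    simp only [adjMatrix_apply, sum_boole, filter_filter]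
    have : #{w | aa G H w = 2 ∧ G.Adj u w} ≤ aa G H u := card_le_card fun w hw => by
      simp only [mem_filter, mem_univ, true_and] at hw ⊢
      refine ⟨hw.2, by_contra fun hn => ?_⟩
      have := h.aa_add hw.2 fun e => hn e.symm
      omega
    rw [hu] at this
    exact_mod_cast this
  · rw [mul_comm, ← nsmul_eq_mul, ← sum_const]
    refine sum_le_sum fun u hu => ?_
    simp only [mem_filter, mem_univ, true_and] at hu
    simp only [adjMatrix_apply, sum_boole, filter_filter]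
    have : aa G H u ≤ #{w | aa G H w = 2 ∧ H.Adj u w} := card_le_card fun w hw => by
      simp only [mem_filter, mem_univ, true_and] at hw ⊢
      have : 0 < aa G H w := card_pos.2 ⟨u, by simp [hw.1.symm, hw.2.symm]⟩
      exact ⟨by have := h.aa_even he w; omega, hw.2.symm⟩
    rw [hu] at this
    exact_mod_cast this

/-- One neighbour in `H` is adjacent in `G` to the other ones. -/
def DD (G H : SimpleGraph V) (u : V) : Prop := ∃ x, H.Adj u x ∧ ∀ z, H.Adj u z → z = x ∨ G.Adj x z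

theorem Cfg.DD_near (h : Cfg G H k) {u w : V} (hu : DD G H u) (hw : DD G H w) (a : G.Adj u w) :
    ∃ z, H.Adj u z ∧ H.Adj z w := by
  by_contra hn
  have ne : ∀ x y, H.Adj u x → H.Adj w y → x ≠ y := fun x y b c e => hn ⟨x, b, e ▸ c.symm⟩
  obtain ⟨x, x1, x2⟩ := hu
  obtain ⟨y, y1, y2⟩ := hw
  by_cases hxy : G.Adj x y
  · have key : ∀ p, H.Adj u p → p ≠ x → G.Adj p x ∧ G.Adj p y := fun p b c => by
      have d := (x2 p b).resolve_left c
      obtain ⟨q, q1, q2⟩ := h.tr a b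
      rcases y2 q q1 with e | e
      · exact ⟨d.symm, e ▸ q2⟩
      · exact (h.c4 x q p y (ne x q x1 q1) (ne p y b y1) d q2.symm hxy e.symm).elim
    obtain ⟨p, q, p1, q1, p2, q2, pq, -⟩ := h.others x1
    exact h.c4 q p x y pq (ne x y x1 y1) (key q q1 q2).1 (key p p1 p2).1 (key q q1 q2).2
      (key p p1 p2).2
  · obtain ⟨q, q1, q2⟩ := h.tr a x1
    obtain ⟨p, p1, p2⟩ := h.tr a.symm y1
    exact h.c4 x y p q (ne x y x1 y1) (ne p q p1 q1)
      ((x2 p p1).resolve_left fun e => hxy (e ▸ p2.symm)) p2 q2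
      ((y2 q q1).resolve_left fun e => hxy (e ▸ q2))

open Classical in
theorem Cfg.bb_le (h : Cfg G H k) (u : V) : bb G H u ≤ 2 + if DD G H u then 4 else 0 := by
  obtain ⟨a, b, c, ha, hb, hc, h1, h2, h3, h4⟩ := h.enum u
  rw [bb_eq ha hb hc h1 h2 h3 h4]
  split_ifs with hu
  · linarith [adj_le G a b, adj_le G a c, adj_le G b c]
  · have n1 : ¬ (G.Adj a b ∧ G.Adj a c) := fun e => hu ⟨a, ha, fun z hz => by
      rcases h4 z hz with rfl | rfl | rfl <;> simp [e.1, e.2]⟩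
    have n2 : ¬ (G.Adj a b ∧ G.Adj b c) := fun e => hu ⟨b, hb, fun z hz => by
      rcases h4 z hz with rfl | rfl | rfl <;> simp [e.1.symm, e.2]⟩
    have n3 : ¬ (G.Adj a c ∧ G.Adj b c) := fun e => hu ⟨c, hc, fun z hz => by
      rcases h4 z hz with rfl | rfl | rfl <;> simp [e.1.symm, e.2.symm]⟩
    by_cases e1 : G.Adj a b <;> by_cases e2 : G.Adj a c <;> by_cases e3 : G.Adj b c <;> simp_all

theorem Cfg.TT_two_even (h : Cfg G H k) (hk : 4 ≤ k) {N D r : ℝ}
    (hN : N = Fintype.card V) (hD : 0 ≤ D) (hr : 0 ≤ r)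
    (h1 : N * (k - 1 - 0) - (k - 4) * D ≤ r ^ 2 * (N - D)) (h2 : (6 + r) * N ≤ (k + r) * D) :
    TT G H 2 ≤ 2 * N + 4 * D := by
  classical
  have e : TT G H 2 ≤ 2 * N + 4 * #{u | DD G H u} := by
    rw [TT_two]
    refine (sum_le_sum fun u _ => h.bb_le u).trans (le_of_eq ?_)
    rw [sum_add_distrib, ← sum_filter, sum_const, sum_const, card_univ, hN]
    simp [mul_comm]
  have := h.hoff hk {u | DD G H u} (c := 6) (b := 0) hN ?_ ?_ hD hr h1 h2
  · linarith
  · rw [mul_comm, ← nsmul_eq_mul, ← sum_const]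
    refine sum_le_sum fun u hu => ?_
    rw [← h.P2.2 u]
    refine (sum_le_sum fun w hw => ?_).trans
      (sum_le_sum_of_subset_of_nonneg (subset_univ _) fun w _ _ => h.P2.1 u w)
    simp only [mem_filter, mem_univ, true_and] at hu hw
    by_cases a : G.Adj u w
    · obtain ⟨z, z1, z2⟩ := h.DD_near hu hw a
      have : 0 < #{z | H.Adj u z ∧ H.Adj z w} := card_pos.2 ⟨z, by simp [z1, z2]⟩
      rw [Matrix.sub_apply, pow_two, mul_card]
      simp only [adjMatrix_apply, a, if_true, Matrix.smul_apply, one_apply_ne a.ne, smul_zero,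
        sub_zero]
      exact_mod_cast this
    · simpa [a] using h.P2.1 u w
  · rw [zero_mul]
    exact sum_nonneg fun u _ => sum_nonneg fun w _ => adj_nn H u w

theorem evA {r : ℝ} (h : 79 / 10 ≤ r) :
    0 ≤ r ^ 3 + r ^ 2 - r + 3 ∧
    (r ^ 4 + r ^ 2 + 4) * (r ^ 2 + 1 - 1 - 2) - (r ^ 2 + 1 - 4) * (r ^ 3 + r ^ 2 - r + 3) ≤
      r ^ 2 * (r ^ 4 + r ^ 2 + 4 - (r ^ 3 + r ^ 2 - r + 3)) ∧
    (2 + r) * (r ^ 4 + r ^ 2 + 4) ≤ (r ^ 2 + 1 + r) * (r ^ 3 + r ^ 2 - r + 3) ∧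
    0 ≤ r ^ 3 + 51 / 10 * r ^ 2 - 5 * r + 10 ∧
    (r ^ 4 + r ^ 2 + 4) * (r ^ 2 + 1 - 1 - 0) -
      (r ^ 2 + 1 - 4) * (r ^ 3 + 51 / 10 * r ^ 2 - 5 * r + 10) ≤
      (r + 1 / 10) ^ 2 * (r ^ 4 + r ^ 2 + 4 - (r ^ 3 + 51 / 10 * r ^ 2 - 5 * r + 10)) ∧
    (6 + (r + 1 / 10)) * (r ^ 4 + r ^ 2 + 4) ≤
      (r ^ 2 + 1 + (r + 1 / 10)) * (r ^ 3 + 51 / 10 * r ^ 2 - 5 * r + 10) := by
  obtain ⟨y, rfl⟩ : ∃ y, r = 79 / 10 + y := ⟨r - 79 / 10, by ring⟩
  have h0 : 0 ≤ y := by linarith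
  have h2 : 0 ≤ y ^ 2 := by positivity
  have h3 : 0 ≤ y ^ 3 := by positivity
  have h4 : 0 ≤ y ^ 4 := by positivity
  have h5 : 0 ≤ y ^ 5 := by positivity
  refine ⟨?_, ?_, ?_, ?_, ?_, ?_⟩ <;> linarith

theorem evB {v w : ℝ} (h0 : 0 < v) (h1 : v ≤ 10 / 79) (hw : w ≤ 21 / 20) :
    1 / 2 < 1 + 3 / 2 * (1 + v ^ 2) - (1 - v + 3 * v ^ 2) + 27 / 8 * (v ^ 2 + v ^ 4) -
      3 / 8 * (2 * (1 + v ^ 2 + 4 * v ^ 4) + 4 * (v + 51 / 10 * v ^ 2 - 5 * v ^ 3 + 10 * v ^ 4)) +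
      135 / 16 * (v ^ 4 + v ^ 6) - 5 / 16 * (10 * (v ^ 3 + v ^ 4 - v ^ 5 + 3 * v ^ 6) +
        9 * (v ^ 2 + v ^ 4 + 4 * v ^ 6)) - 2835 / 128 * ((1 + v ^ 2 + 4 * v ^ 4) * v ^ 4 * w) ∧
    1 + 3 / 2 * (1 + v ^ 2) + 27 / 8 * ((1 + v ^ 2) * v ^ 2 * w) ≤ 13 / 5 := by
  have a2 := pow_le_pow_left₀ h0.le h1 2
  have a4 := pow_le_pow_left₀ h0.le h1 4
  have a6 := pow_le_pow_left₀ h0.le h1 6
  have a8 := pow_le_pow_left₀ h0.le h1 8
  have a3 : 0 ≤ v ^ 3 := by positivity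
  have a5 : 0 ≤ v ^ 5 := by positivity
  have b1 : (1 + v ^ 2 + 4 * v ^ 4) * v ^ 4 * w ≤ (1 + v ^ 2 + 4 * v ^ 4) * v ^ 4 * (21 / 20) := by
    gcongr
  have b2 : (1 + v ^ 2) * v ^ 2 * w ≤ (1 + v ^ 2) * v ^ 2 * (21 / 20) := by gcongr
  norm_num at a2 a4 a6 a8
  constructor <;> linarith

theorem evC {r x : ℝ} {s j : ℤ} (hr : 79 / 10 ≤ r) (hx : x = r * j) (hs : (0 : ℝ) ≤ s)
    (h1 : (s : ℝ) ^ 2 ≤ r ^ 2 + 1) (h2 : r ^ 2 + 6 ≤ (s + 1 : ℝ) ^ 2)
    (h3 : r ^ 2 - r + 1 / 2 < x) (h4 : x ≤ r ^ 2 + 13 / 5) : j = s := by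
  have r0 : 0 < r := by linarith
  have a1 : s * r ≤ r ^ 2 + 1 / 2 :=
    le_of_pow_le_pow_left₀ (n := 2) (by norm_num) (by positivity) (by nlinarith)
  have a2 : (s : ℝ) - 1 < j := lt_of_mul_lt_mul_left (by linarith) r0.le
  have a3 : r ^ 2 + 13 / 5 < r * (s + 1) :=
    lt_of_pow_lt_pow_left₀ 2 (by positivity) (by nlinarith)
  have a4 : (j : ℝ) < s + 1 := lt_of_mul_lt_mul_left (by linarith) r0.le
  have a5 : s - 1 < j := by exact_mod_cast a2
  have a6 : j < s + 1 := by exact_mod_cast a4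
  omega

theorem Cfg.not_even (h : Cfg G H k) (he : Even k) {s : ℕ} (hs : Even s) (h8 : 8 ≤ s)
    (h1 : s ^ 2 ≤ k) (h2 : k + 5 ≤ (s + 1) ^ 2) : False := by
  have hk : 64 ≤ k := by nlinarith
  have hk' : (64 : ℝ) ≤ k := by exact_mod_cast hk
  obtain ⟨j, hj, hs'⟩ := h.trunc (by omega)
  have lo := (hs' 4).1
  have hi := (hs' 2).2
  clear hs'
  obtain ⟨r, hr⟩ : ∃ r, r = √((k : ℝ) - 1) := ⟨_, rfl⟩
  have hK : (k : ℝ) = r ^ 2 + 1 := by rw [hr, Real.sq_sqrt (by linarith)]; ring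
  have r8 : 79 / 10 ≤ r := by rw [hr]; exact Real.le_sqrt_of_sq_le (by linarith)
  have hN : r ^ 4 + r ^ 2 + 4 = Fintype.card V := by rw [h.card, hK]; ring
  obtain ⟨c1, c2, c3, c4, c5, c6⟩ := evA r8
  have t1 := h.TT_one_even (by omega) he hN c1 (r := r) (by linarith) (hK ▸ c2) (hK ▸ c3)
  have t2 := h.TT_two_even (by omega) hN c4 (r := r + 1 / 10) (by linarith) (hK ▸ c5) (hK ▸ c6)
  have t3 := h.TT_three.2
  have t0 := (h.TT_bound 1).1
  clear c1 c2 c3 c4 c5 c6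
  simp only [sum_range_succ, range_zero, sum_empty, TT_zero, cc_zero, cc_one, cc_two,
    cc_three, cc_four] at lo hi
  rw [← hr, ← hN, hK, add_sub_cancel_right] at lo
  rw [← hr, hK, add_sub_cancel_right] at hi
  rw [← hN] at t3
  generalize TT G H 1 = T1 at *
  generalize TT G H 2 = T2 at *
  generalize TT G H 3 = T3 at *
  have r0 : 0 < r := by linarith
  have r3 : r ^ 2 - 3 ≠ 0 := by linarith
  obtain ⟨v, hv⟩ : ∃ v, v = 1 / r := ⟨_, rfl⟩
  obtain ⟨w, hw⟩ : ∃ w, w = r ^ 2 / (r ^ 2 - 3) := ⟨_, rfl⟩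
  have v0 : 0 < v := by rw [hv]; positivity
  have v1 : v ≤ 10 / 79 := by rw [hv, div_le_div_iff₀ r0 (by norm_num)]; linarith
  have w1 : w ≤ 21 / 20 := by rw [hw, div_le_iff₀ (by linarith)]; linarith
  obtain ⟨b1, b2⟩ := evB v0 v1 w1
  have lo' : r ^ 2 + 1 + 3 / 2 * (1 + v ^ 2) - 1 / 2 * (T1 * v ^ 2) + 27 / 8 * (v ^ 2 + v ^ 4) -
      3 / 8 * (T2 * v ^ 4) + 135 / 16 * (v ^ 4 + v ^ 6) - 5 / 16 * (T3 * v ^ 6) -
      2835 / 128 * ((1 + v ^ 2 + 4 * v ^ 4) * v ^ 4 * w) ≤ r * j := by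
    refine le_of_eq_of_le ?_ lo
    rw [hv, hw]; field_simp; ring
  have hi' : r * j ≤ r ^ 2 + 1 + 3 / 2 * (1 + v ^ 2) - 1 / 2 * (T1 * v ^ 2) +
      27 / 8 * ((1 + v ^ 2) * v ^ 2 * w) := by
    refine le_of_le_of_eq hi ?_
    rw [hv, hw]; field_simp; ring
  clear lo hi
  have s0 : 0 ≤ T1 * v ^ 2 := by positivity
  have s1 : T1 * v ^ 2 ≤ 2 * (r + (1 - v + 3 * v ^ 2)) :=
    (mul_le_mul_of_nonneg_right t1 (by positivity)).trans (le_of_eq (by rw [hv]; field_simp; ring))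
  have s2 : T2 * v ^ 4 ≤ 2 * (1 + v ^ 2 + 4 * v ^ 4) +
      4 * (v + 51 / 10 * v ^ 2 - 5 * v ^ 3 + 10 * v ^ 4) :=
    (mul_le_mul_of_nonneg_right t2 (by positivity)).trans (le_of_eq (by rw [hv]; field_simp))
  have s3 : T3 * v ^ 6 ≤ 10 * (v ^ 3 + v ^ 4 - v ^ 5 + 3 * v ^ 6) +
      9 * (v ^ 2 + v ^ 4 + 4 * v ^ 6) :=
    (mul_le_mul_of_nonneg_right (show T3 ≤ 10 * (r ^ 3 + r ^ 2 - r + 3) +
      9 * (r ^ 4 + r ^ 2 + 4) by linarith) (by positivity)).trans
      (le_of_eq (by rw [hv]; field_simp))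
  have d1 : ((s : ℤ) : ℝ) ^ 2 ≤ r ^ 2 + 1 := by rw [← hK]; exact_mod_cast h1
  have d2 : r ^ 2 + 6 ≤ (((s : ℤ) : ℝ) + 1) ^ 2 := by
    have : (k : ℝ) + 5 ≤ ((s : ℝ) + 1) ^ 2 := by exact_mod_cast h2
    push_cast; linarith
  have := evC (j := j) r8 rfl (by positivity) d1 d2 (by linarith) (by linarith)
  rw [this, Int.odd_coe_nat] at hj
  exact Nat.not_odd_iff_even.2 hs hj

end Pool.Agent.MP_45e593_co.T3

end
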